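import Pool.Agent.Lib_helper59.REVM.Defs

/-! # REVM, block mA (helper39) -/

open MeasureTheory Filter Topology

namespace Pool.Agent.Lib_helper59.REV

theorem mA_real {R a b s c T : ℝ} (hR : 0 < R) (ha : 1 ≤ a) (hb0 : 0 ≤ b) (hb : b ≤ R)
    (hsc : s ^ 2 + c ^ 2 = 1) (hT0 : 0 ≤ T)
    (hT : T ^ 2 = (R ^ 2 * s ^ 2 + b ^ 2 * c ^ 2) * (a ^ 2 * s ^ 2 + c ^ 2)) :
    R * (s ^ 2 * a) + c ^ 2 * b + c ^ 2 * s ^ 2 * ((R - b * a) ^ 2 / (2 * R * a)) ≤ T := by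
  set L : ℝ := R * (s ^ 2 * a) + c ^ 2 * b with hL
  have ha0 : 0 < a := by linarith
  have hL0 : 0 ≤ L := by positivity
  have h1 : T ^ 2 - L ^ 2 = c ^ 2 * s ^ 2 * (R - b * a) ^ 2 := by
    rw [hT, hL]
    ring
  have h2 : L ≤ T := by
    refine le_of_pow_le_pow_left₀ two_ne_zero hT0 ?_
    have : 0 ≤ c ^ 2 * s ^ 2 * (R - b * a) ^ 2 := by positivity
    linarith
  have h3 : T ≤ R * a := by
    refine le_of_pow_le_pow_left₀ two_ne_zero (by positivity) ?_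
    rw [hT, mul_pow]
    have hb2 : b ^ 2 ≤ R ^ 2 := pow_le_pow_left₀ hb0 hb 2
    have ha2 : 1 ≤ a ^ 2 := one_le_pow₀ ha
    have h4 : R ^ 2 * s ^ 2 + b ^ 2 * c ^ 2 ≤ R ^ 2 := by
      nlinarith [sq_nonneg c, sq_nonneg s]
    have h5 : a ^ 2 * s ^ 2 + c ^ 2 ≤ a ^ 2 := by
      nlinarith [sq_nonneg c, sq_nonneg s]
    exact mul_le_mul h4 h5 (by positivity) (by positivity)
  have h4 : c ^ 2 * s ^ 2 * ((R - b * a) ^ 2 / (2 * R * a)) ≤ T - L := by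
    rw [← mul_div_assoc, div_le_iff₀ (by positivity), ← h1]
    nlinarith
  linarith

theorem mA_main (R : ℝ) (f : ℝ → ℝ) (x y : ℝ) (h0 : 0 < nr (x, y)) (h1 : nr (x, y) < R) :
    R * ((y / nr (x, y)) ^ 2 * gr f (nr (x, y))) +
        (x / nr (x, y)) ^ 2 * √(R ^ 2 - nr (x, y) ^ 2) +
        (x / nr (x, y)) ^ 2 * (y / nr (x, y)) ^ 2 *
          ((R - √(R ^ 2 - nr (x, y) ^ 2) * gr f (nr (x, y))) ^ 2 / (2 * R * gr f (nr (x, y)))) ≤
      √(R ^ 2 - x ^ 2) * gl f x y := by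
  have hr2 : nr (x, y) ^ 2 = x ^ 2 + y ^ 2 := by
    unfold nr
    exact Real.sq_sqrt (by positivity)
  unfold gl gr
  set r := nr (x, y) with hr
  set q := deriv f r with hq
  set s := y / r with hs
  set c := x / r with hc
  have hx : x = c * r := by rw [hc]; field_simp
  have hsc : s ^ 2 + c ^ 2 = 1 := by
    rw [hs, hc, div_pow, div_pow, ← add_div, add_comm, ← hr2, div_self (by positivity)]
  have hR : 0 < R := h0.trans h1
  have hA : 0 ≤ R ^ 2 - r ^ 2 := by nlinarith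
  have hB : R ^ 2 - x ^ 2 = R ^ 2 * s ^ 2 + (R ^ 2 - r ^ 2) * c ^ 2 := by
    rw [hx]
    linear_combination (-R ^ 2) * hsc
  have hC : 1 + (q * s) ^ 2 = (1 + q ^ 2) * s ^ 2 + c ^ 2 := by
    linear_combination (-1 : ℝ) * hsc
  have e1 : √(1 + q ^ 2) ^ 2 = 1 + q ^ 2 := Real.sq_sqrt (by positivity)
  have e2 : √(R ^ 2 - r ^ 2) ^ 2 = R ^ 2 - r ^ 2 := Real.sq_sqrt hA
  refine mA_real hR ?_ (Real.sqrt_nonneg _) ?_ hsc (by positivity) ?_
  · rw [Real.one_le_sqrt]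
    nlinarith [sq_nonneg q]
  · rw [Real.sqrt_le_left hR.le]
    nlinarith [sq_nonneg r]
  · rw [mul_pow, Real.sq_sqrt (by rw [hB]; positivity), Real.sq_sqrt (by positivity), e1, e2, hB,
      hC]

end Pool.Agent.Lib_helper59.REV
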