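import Pool.Agent.Lib_helper59.REVM.Defs
import Pool.Agent.Lib_helper59.REVF.dscA

/-! # REVM, block mB (helper45) -/

open MeasureTheory Filter Topology

namespace Pool.Agent.Lib_helper59.REV

theorem mB_polar (F g : ℝ → ENNReal) (hF : Measurable F) (hg : Measurable g)
    (H : ℝ × ℝ → ENNReal)
    (hH : ∀ r θ : ℝ, 0 < r → H (r * Real.cos θ, r * Real.sin θ) = F r * g θ) :
    ∫⁻ p : ℝ × ℝ, H p = (∫⁻ r in Set.Ioi (0:ℝ), ENNReal.ofReal r * F r) *
      ∫⁻ θ in Set.Ioo (-Real.pi) Real.pi, g θ := by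
  rw [← lintegral_comp_polarCoord_symm, polarCoord_target]
  have hpt : ∀ p ∈ Set.Ioi (0:ℝ) ×ˢ Set.Ioo (-Real.pi) Real.pi,
      ENNReal.ofReal p.1 • H (polarCoord.symm p) = (ENNReal.ofReal p.1 * F p.1) * g p.2 := by
    rintro ⟨r, θ⟩ ⟨hr, -⟩
    rw [polarCoord_symm_apply, hH r θ hr, smul_eq_mul, mul_assoc]
  have hm : Measurable (fun r : ℝ => ENNReal.ofReal r * F r) := by fun_prop
  rw [setLIntegral_congr_fun (measurableSet_Ioi.prod measurableSet_Ioo) hpt,
    Measure.volume_eq_prod, ← Measure.prod_restrict,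
    lintegral_prod_mul hm.aemeasurable hg.aemeasurable]

theorem mB_ind (R : ℝ) (G : ℝ → ℝ) :
    ∫⁻ r in Set.Ioi (0:ℝ), ENNReal.ofReal r *
      (Set.Iio R).indicator (fun r : ℝ => ENNReal.ofReal (G r)) r =
      ∫⁻ r in Set.Ioo 0 R, ENNReal.ofReal (r * G r) := by
  rw [← lintegral_indicator measurableSet_Ioi, ← lintegral_indicator measurableSet_Ioo]
  refine lintegral_congr fun r => ?_
  by_cases h : 0 < r
  · rw [Set.indicator_of_mem (show r ∈ Set.Ioi (0:ℝ) from h)]
    by_cases h' : r < R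
    · rw [Set.indicator_of_mem (show r ∈ Set.Iio R from h'),
        Set.indicator_of_mem (show r ∈ Set.Ioo 0 R from ⟨h, h'⟩), ENNReal.ofReal_mul h.le]
    · rw [Set.indicator_of_notMem (show r ∉ Set.Iio R from h'),
        Set.indicator_of_notMem (show r ∉ Set.Ioo 0 R from fun h2 => h' h2.2), mul_zero]
  · rw [Set.indicator_of_notMem (show r ∉ Set.Ioi (0:ℝ) from h),
      Set.indicator_of_notMem (show r ∉ Set.Ioo 0 R from fun h2 => h h2.1)]

theorem mB_nr (r θ : ℝ) (hr : 0 < r) : nr (r * Real.cos θ, r * Real.sin θ) = r := by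
  have hsum : (r * Real.cos θ) ^ 2 + (r * Real.sin θ) ^ 2 = r ^ 2 := by
    have := Real.cos_sq_add_sin_sq θ
    nlinarith [this]
  unfold nr
  dsimp only
  rw [hsum, Real.sqrt_sq hr.le]

theorem mB_cs : ∫⁻ θ in Set.Ioo (-Real.pi) Real.pi,
    ENNReal.ofReal (Real.sin θ ^ 2 * Real.cos θ ^ 2) = ENNReal.ofReal (Real.pi / 4) := by
  have hle : -Real.pi ≤ Real.pi := by linarith [Real.pi_pos]
  have hint : IntervalIntegrable (fun θ : ℝ => Real.sin θ ^ 2 * Real.cos θ ^ 2) volume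
      (-Real.pi) Real.pi := by
    apply Continuous.intervalIntegrable
    fun_prop
  have hval : ∫ θ in (-Real.pi)..Real.pi, Real.sin θ ^ 2 * Real.cos θ ^ 2 = Real.pi / 4 := by
    rw [integral_sin_sq_mul_cos_sq]
    have h1 : Real.sin (4 * Real.pi) = 0 := by
      have := Real.sin_nat_mul_pi 4
      exact_mod_cast this
    have h2 : Real.sin (4 * -Real.pi) = 0 := by
      rw [mul_neg, Real.sin_neg, h1, neg_zero]
    rw [h1, h2]
    ring
  rw [intervalIntegral.integral_of_le hle, integral_Ioc_eq_integral_Ioo] at hval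
  have hI : IntegrableOn (fun θ : ℝ => Real.sin θ ^ 2 * Real.cos θ ^ 2)
      (Set.Ioo (-Real.pi) Real.pi) volume :=
    (intervalIntegrable_iff_integrableOn_Ioo_of_le hle).mp hint
  rw [← ofReal_integral_eq_lintegral_ofReal hI, hval]
  exact Filter.Eventually.of_forall fun θ => by positivity

theorem mB_ang (R : ℝ) (hR : 0 < R) (G : ℝ → ℝ) (hG : Measurable G) (h0 : ∀ r, 0 ≤ G r) :
    ∫⁻ p in disc R, ENNReal.ofReal ((p.1 / nr p) ^ 2 * (p.2 / nr p) ^ 2 * G (nr p)) =
      ENNReal.ofReal (Real.pi / 4) * ∫⁻ r in Set.Ioo 0 R, ENNReal.ofReal (r * G r) := by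
  have hF : Measurable ((Set.Iio R).indicator (fun r : ℝ => ENNReal.ofReal (G r))) :=
    Measurable.indicator (by fun_prop) measurableSet_Iio
  rw [← lintegral_indicator (dsc_meas R), mB_polar
    ((Set.Iio R).indicator (fun r : ℝ => ENNReal.ofReal (G r)))
    (fun θ => ENNReal.ofReal (Real.sin θ ^ 2 * Real.cos θ ^ 2)) hF (by fun_prop), mB_ind, mB_cs,
    mul_comm]
  intro r θ hr
  have hnr := mB_nr r θ hr
  by_cases h : r < R
  · rw [Set.indicator_of_mem ((dscA_mem R hR _).2 (by rw [hnr]; exact h)),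
      Set.indicator_of_mem (show r ∈ Set.Iio R from h), ← ENNReal.ofReal_mul (h0 r)]
    congr 1
    rw [hnr]
    dsimp only
    rw [mul_div_cancel_left₀ _ hr.ne', mul_div_cancel_left₀ _ hr.ne']
    ring
  · rw [Set.indicator_of_notMem (fun h' => h (by
      rw [← hnr]
      exact (dscA_mem R hR _).1 h')), Set.indicator_of_notMem (show r ∉ Set.Iio R from h),
      zero_mul]

theorem mB_rad (R : ℝ) (hR : 0 < R) (G : ℝ → ℝ) (hG : Measurable G) (h0 : ∀ r, 0 ≤ G r) :
    ∫⁻ p in disc R, ENNReal.ofReal (G (nr p)) =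
      ENNReal.ofReal (2 * Real.pi) * ∫⁻ r in Set.Ioo 0 R, ENNReal.ofReal (r * G r) := by
  have hF : Measurable ((Set.Iio R).indicator (fun r : ℝ => ENNReal.ofReal (G r))) :=
    Measurable.indicator (by fun_prop) measurableSet_Iio
  rw [← mB_ind, ← dscA_polar _ hF, ← lintegral_indicator (dsc_meas R)]
  refine lintegral_congr fun p => ?_
  by_cases h : p ∈ disc R
  · rw [Set.indicator_of_mem h, Set.indicator_of_mem (show nr p ∈ Set.Iio R from
      (dscA_mem R hR p).mp h)]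
  · rw [Set.indicator_of_notMem h, Set.indicator_of_notMem (fun h' : nr p ∈ Set.Iio R =>
      h ((dscA_mem R hR p).mpr h'))]

end Pool.Agent.Lib_helper59.REV
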