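import Pool.Agent.Lib_helper59.REVM.Defs
import Pool.Agent.Lib_helper59.REVF.dif
import Pool.Agent.Lib_helper59.REVF.intB
import Pool.Agent.Lib_helper59.REVMF.mA
import Pool.Agent.Lib_helper59.REVMF.mB

/-! # REVM, block mC -/

open MeasureTheory Filter Topology

namespace Pool.Agent.Lib_helper59.REV

/-- the radial remainder -/
theorem mC_G_meas (R : ℝ) (f : ℝ → ℝ) :
    Measurable (fun r : ℝ => (R - √(R ^ 2 - r ^ 2) * gr f r) ^ 2 / (2 * R * gr f r)) := by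
  have h1 : Measurable (gr f) := intB_gr_meas f
  have h2 : Measurable (fun r : ℝ => √(R ^ 2 - r ^ 2)) := by fun_prop
  exact ((measurable_const.sub (h2.mul h1)).pow_const 2).div (measurable_const.mul h1)

theorem mC_G_nonneg (R : ℝ) (hR : 0 < R) (f : ℝ → ℝ) (r : ℝ) :
    0 ≤ (R - √(R ^ 2 - r ^ 2) * gr f r) ^ 2 / (2 * R * gr f r) := by
  have h1 : 0 ≤ gr f r := Real.sqrt_nonneg _
  exact div_nonneg (sq_nonneg _) (mul_nonneg (by linarith) h1)

theorem mC_DD (R : ℝ) (hR : 0 < R) (f : ℝ → ℝ) :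
    ENNReal.ofReal (Real.pi / (8 * R)) * DD R f =
      ∫⁻ p in disc R, ENNReal.ofReal ((p.1 / nr p) ^ 2 * (p.2 / nr p) ^ 2 *
        ((R - √(R ^ 2 - nr p ^ 2) * gr f (nr p)) ^ 2 / (2 * R * gr f (nr p)))) := by
  have h := mB_ang R hR (fun r : ℝ => (R - √(R ^ 2 - r ^ 2) * gr f r) ^ 2 / (2 * R * gr f r))
    (mC_G_meas R f) (mC_G_nonneg R hR f)
  rw [h]
  unfold DD
  have h2R : (0:ℝ) < 1 / (2 * R) := by positivity
  have e : ∀ r : ℝ, ENNReal.ofReal (r * ((R - √(R ^ 2 - r ^ 2) * gr f r) ^ 2 /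
      (2 * R * gr f r))) = ENNReal.ofReal (1 / (2 * R)) *
      ENNReal.ofReal (r * ((R - √(R ^ 2 - r ^ 2) * gr f r) ^ 2 / gr f r)) := by
    intro r
    rw [← ENNReal.ofReal_mul h2R.le]
    congr 1
    have hg : gr f r ≠ 0 := by
      unfold gr
      exact (Real.sqrt_pos.mpr (by positivity)).ne'
    field_simp
  have hm : Measurable (fun r : ℝ =>
      ENNReal.ofReal (r * ((R - √(R ^ 2 - r ^ 2) * gr f r) ^ 2 / gr f r))) := by
    have h1 : Measurable (gr f) := intB_gr_meas f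
    have h2 : Measurable (fun r : ℝ => √(R ^ 2 - r ^ 2)) := by fun_prop
    exact (measurable_id.mul (((measurable_const.sub (h2.mul h1)).pow_const 2).div
      h1)).ennreal_ofReal
  rw [lintegral_congr e, lintegral_const_mul _ hm, ← mul_assoc,
    ← ENNReal.ofReal_mul (by positivity)]
  congr 2
  field_simp
  norm_num

theorem mC_one (R : ℝ) (f : ℝ → ℝ) (h : Cap R f) :
    (∫⁻ p in disc R, ENNReal.ofReal (R * ((p.2 / nr p) ^ 2 * gr f (nr p)) +
        (p.1 / nr p) ^ 2 * √(R ^ 2 - nr p ^ 2))) + ENNReal.ofReal (Real.pi / (8 * R)) * DD R f ≤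
      ∫⁻ p in disc R, ENNReal.ofReal (√(R ^ 2 - p.1 ^ 2) * gl f p.1 p.2) := by
  have hR := h.hR
  rw [mC_DD R hR f]
  have hn : Measurable nr := intB_nr_meas
  have hg : Measurable (fun p : ℝ × ℝ => gr f (nr p)) := (intB_gr_meas f).comp hn
  have m1 : Measurable (fun p : ℝ × ℝ => ENNReal.ofReal (R * ((p.2 / nr p) ^ 2 * gr f (nr p)) +
        (p.1 / nr p) ^ 2 * √(R ^ 2 - nr p ^ 2))) := by
    have a1 : Measurable (fun p : ℝ × ℝ => (p.2 / nr p) ^ 2) :=
      (measurable_snd.div hn).pow_const 2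
    have a2 : Measurable (fun p : ℝ × ℝ => (p.1 / nr p) ^ 2) :=
      (measurable_fst.div hn).pow_const 2
    have a3 : Measurable (fun p : ℝ × ℝ => √(R ^ 2 - nr p ^ 2)) :=
      (measurable_const.sub (hn.pow_const 2)).sqrt
    exact ((measurable_const.mul (a1.mul hg)).add (a2.mul a3)).ennreal_ofReal
  rw [← lintegral_add_left m1]
  refine lintegral_mono_ae ?_
  rw [ae_restrict_iff' (dsc_meas R)]
  filter_upwards [dif_disc R f h] with p hp hpd
  obtain ⟨hp0, hp1, -⟩ := hp hpd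
  have hA := mA_main R f p.1 p.2 hp0 hp1
  have g0 : 0 ≤ gr f (nr p) := Real.sqrt_nonneg _
  have n1 : 0 ≤ R * ((p.2 / nr p) ^ 2 * gr f (nr p)) +
        (p.1 / nr p) ^ 2 * √(R ^ 2 - nr p ^ 2) :=
    add_nonneg (mul_nonneg hR.le (mul_nonneg (sq_nonneg _) g0))
      (mul_nonneg (sq_nonneg _) (Real.sqrt_nonneg _))
  have n2 : 0 ≤ (p.1 / nr p) ^ 2 * (p.2 / nr p) ^ 2 *
        ((R - √(R ^ 2 - nr p ^ 2) * gr f (nr p)) ^ 2 / (2 * R * gr f (nr p))) :=
    mul_nonneg (mul_nonneg (sq_nonneg _) (sq_nonneg _)) (mC_G_nonneg R hR f (nr p))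
  rw [← ENNReal.ofReal_add n1 n2]
  exact ENNReal.ofReal_le_ofReal hA

theorem mC_main (R : ℝ) (u v : ℝ → ℝ) (h : Prof R u v) :
    ENNReal.ofReal (R / 2) * S1 R u v + ENNReal.ofReal (2 * Real.pi * R ^ 3 / 3) +
        ENNReal.ofReal (Real.pi / (8 * R)) * (DD R u + DD R v) ≤
      ∫⁻ d in Set.Ioo (-R) R, ENNReal.ofReal √(R ^ 2 - d ^ 2) * L0 R u v d := by
  rw [intB_L0 R u v h, intB_S1 R u v h,
    mul_add (ENNReal.ofReal (Real.pi / (8 * R))) (DD R u) (DD R v)]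
  have hu := mC_one R u h.cu
  have hv := mC_one R v h.cv
  have h1 := add_le_add (add_le_add hu hv)
    (le_refl (ENNReal.ofReal (Real.pi * R ^ 2 * (u R + v R))))
  refine le_trans (le_of_eq ?_) h1
  ring

theorem mC_S1 (R : ℝ) (u v : ℝ → ℝ) (h : Prof R u v) :
    S1 R u v = ENNReal.ofReal (2 * Real.pi) *
      (I1 u 0 R + I1 v 0 R + ENNReal.ofReal (R * (u R + v R))) := by
  have hR := h.cu.hR
  have g0 : ∀ (f : ℝ → ℝ) (r : ℝ), 0 ≤ gr f r := fun f r => Real.sqrt_nonneg _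
  unfold S1 I1
  have e : ENNReal.ofReal (2 * Real.pi * R * (u R + v R)) =
      ENNReal.ofReal (2 * Real.pi) * ENNReal.ofReal (R * (u R + v R)) := by
    rw [← ENNReal.ofReal_mul (by positivity)]
    congr 1
    ring
  rw [mB_rad R hR (gr u) (intB_gr_meas u) (g0 u), mB_rad R hR (gr v) (intB_gr_meas v) (g0 v), e]
  ring

end Pool.Agent.Lib_helper59.REV
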