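import Pool.Agent.Lib_helper59.REVM.Defs
import Pool.Agent.Lib_helper59.REVF.eqF

/-! # REVM, block mD -/

open MeasureTheory Filter Topology

namespace Pool.Agent.Lib_helper59.REV

theorem mD_num (δ : ℝ) (hδ : 0 < δ) : ∃ lam : ℝ, 1 < lam ∧ ∀ s t : ℝ, 0 ≤ s → 0 ≤ t →
    81 / 256 * (s + 1 / 3 + t) ^ 4 < lam * s ^ 3 → |s - 1| ≤ δ ∧ t ≤ δ := by
  set μ : ℝ := min 1 (min (δ ^ 2 / 131072) (3 * δ / 32768)) with hμ
  have hμ0 : 0 < μ := by rw [hμ]; positivity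
  have hμ1 : μ ≤ 1 := min_le_left _ _
  have hμ2 : μ ≤ δ ^ 2 / 131072 := (min_le_right _ _).trans (min_le_left _ _)
  have hμ3 : μ ≤ 3 * δ / 32768 := (min_le_right _ _).trans (min_le_right _ _)
  refine ⟨1 + μ, by linarith, ?_⟩
  intro s t hs ht h
  have h1 : (s + 1 / 3) ^ 4 + 4 * (s + 1 / 3) ^ 3 * t ≤ (s + 1 / 3 + t) ^ 4 := by
    have e : (s + 1 / 3 + t) ^ 4 = (s + 1 / 3) ^ 4 + 4 * (s + 1 / 3) ^ 3 * t +
        (6 * (s + 1 / 3) ^ 2 * t ^ 2 + 4 * (s + 1 / 3) * t ^ 3 + t ^ 4) := by ring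
    have : 0 ≤ 6 * (s + 1 / 3) ^ 2 * t ^ 2 + 4 * (s + 1 / 3) * t ^ 3 + t ^ 4 := by positivity
    linarith
  have h2 : 81 / 256 * (s + 1 / 3) ^ 4 - s ^ 3 =
      (s - 1) ^ 2 * (81 * s ^ 2 + 14 * s + 1) / 256 := by ring
  have h3 : (s - 1) ^ 2 / 256 ≤ (s - 1) ^ 2 * (81 * s ^ 2 + 14 * s + 1) / 256 := by
    have : 0 ≤ (s - 1) ^ 2 * (81 * s ^ 2 + 14 * s) := by positivity
    nlinarith
  have h4 : (1 / 27 : ℝ) * t ≤ (s + 1 / 3) ^ 3 * t := by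
    apply mul_le_mul_of_nonneg_right _ ht
    have : (1 / 3 : ℝ) ^ 3 ≤ (s + 1 / 3) ^ 3 := by
      apply pow_le_pow_left₀ (by norm_num); linarith
    norm_num at this ⊢
    linarith
  have hs8 : s ≤ 8 := by
    by_contra hcon
    push Not at hcon
    have h5 : s ^ 4 ≤ (s + 1 / 3 + t) ^ 4 := by
      apply pow_le_pow_left₀ hs; linarith
    have h6 : 0 < s ^ 3 := by positivity
    have h7 : (1 + μ) * s ^ 3 ≤ 2 * s ^ 3 := by nlinarith
    have h8 : s ^ 4 = s * s ^ 3 := by ring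
    nlinarith
  have hs3 : s ^ 3 ≤ 512 := by
    calc s ^ 3 ≤ 8 ^ 3 := pow_le_pow_left₀ hs hs8 3
      _ = 512 := by norm_num
  have hs30 : 0 ≤ s ^ 3 := by positivity
  have h9 : μ * s ^ 3 ≤ μ * 512 := mul_le_mul_of_nonneg_left hs3 hμ0.le
  have h10 : (s - 1) ^ 2 / 256 + 3 / 64 * t < μ * 512 := by nlinarith
  have hsq : 0 ≤ (s - 1) ^ 2 := sq_nonneg _
  constructor
  · have h11 : (s - 1) ^ 2 ≤ δ ^ 2 := by nlinarith
    exact abs_le_of_sq_le_sq h11 hδ.le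
  · nlinarith

theorem mD_main (δ : ℝ) (hδ : 0 < δ) : ∃ lam : ℝ, 1 < lam ∧ ∀ (R : ℝ) (S T : ENNReal)
    (L : ℝ → ENNReal), 0 < R → Measurable L →
    ∫⁻ d in Set.Ioo (-R) R, ENNReal.ofReal √(R ^ 2 - d ^ 2) ^ 2 = ENNReal.ofReal (4 * R ^ 3 / 3) →
    ENNReal.ofReal (R / 2) * S + ENNReal.ofReal (2 * Real.pi * R ^ 3 / 3) +
        ENNReal.ofReal (Real.pi / (8 * R)) * T ≤
      ∫⁻ d in Set.Ioo (-R) R, ENNReal.ofReal √(R ^ 2 - d ^ 2) * L d →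
    ENNReal.ofReal (lam * (4 * Real.pi / 9)) * S ^ 3 ≤ (∫⁻ d in Set.Ioo (-R) R, L d ^ 2) ^ 2 ∨
      (S ≤ ENNReal.ofReal (4 * Real.pi * R ^ 2 * (1 + δ)) ∧ T ≤ ENNReal.ofReal (δ * R ^ 4)) := by
  obtain ⟨lam, hlam, hnum⟩ := mD_num (δ / 16) (by positivity)
  refine ⟨lam, hlam, ?_⟩
  intro R S T L hR hL hw hI
  have hpi := Real.pi_pos
  by_cases hleft : ENNReal.ofReal (lam * (4 * Real.pi / 9)) * S ^ 3 ≤
      (∫⁻ d in Set.Ioo (-R) R, L d ^ 2) ^ 2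
  · exact Or.inl hleft
  right
  push Not at hleft
  set X : ENNReal := ∫⁻ d in Set.Ioo (-R) R, ENNReal.ofReal √(R ^ 2 - d ^ 2) * L d with hX
  set J : ENNReal := ∫⁻ d in Set.Ioo (-R) R, L d ^ 2 with hJ
  have h2 : X ^ 2 ≤ ENNReal.ofReal (4 * R ^ 3 / 3) * J := by
    have h2 := eqF_cs (volume.restrict (Set.Ioo (-R) R))
      (fun d => ENNReal.ofReal √(R ^ 2 - d ^ 2)) L
      (by
        have : Measurable fun d : ℝ => ENNReal.ofReal √(R ^ 2 - d ^ 2) := by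
          refine ENNReal.measurable_ofReal.comp ?_
          exact (Real.continuous_sqrt.comp (by fun_prop)).measurable
        exact this.aemeasurable) hL.aemeasurable
    rwa [hw] at h2
  have hJt : J ≠ ⊤ := by
    intro h
    rw [h, ENNReal.top_pow two_ne_zero] at hleft
    exact not_top_lt hleft
  have hXt : X ≠ ⊤ := by
    intro h
    rw [h, ENNReal.top_pow two_ne_zero, top_le_iff] at h2
    exact ENNReal.mul_ne_top ENNReal.ofReal_ne_top hJt h2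
  have hSt : S ≠ ⊤ := by
    intro h
    rw [h, ENNReal.mul_top (by rw [ne_eq, ENNReal.ofReal_eq_zero, not_le]; positivity), top_add,
      top_add, top_le_iff] at hI
    exact hXt hI
  have hTt : T ≠ ⊤ := by
    intro h
    rw [h, ENNReal.mul_top (by rw [ne_eq, ENNReal.ofReal_eq_zero, not_le]; positivity), add_top,
      top_le_iff] at hI
    exact hXt hI
  obtain ⟨x, hx0, hx⟩ : ∃ x : ℝ, 0 ≤ x ∧ X = ENNReal.ofReal x :=
    ⟨X.toReal, ENNReal.toReal_nonneg, (ENNReal.ofReal_toReal hXt).symm⟩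
  obtain ⟨j, hj0, hj⟩ : ∃ x : ℝ, 0 ≤ x ∧ J = ENNReal.ofReal x :=
    ⟨J.toReal, ENNReal.toReal_nonneg, (ENNReal.ofReal_toReal hJt).symm⟩
  obtain ⟨s, hs0, hs⟩ : ∃ x : ℝ, 0 ≤ x ∧ S = ENNReal.ofReal x :=
    ⟨S.toReal, ENNReal.toReal_nonneg, (ENNReal.ofReal_toReal hSt).symm⟩
  obtain ⟨t, ht0, ht⟩ : ∃ x : ℝ, 0 ≤ x ∧ T = ENNReal.ofReal x :=
    ⟨T.toReal, ENNReal.toReal_nonneg, (ENNReal.ofReal_toReal hTt).symm⟩
  have hlam0 : 0 < lam := by linarith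
  rw [hx, hj, ← ENNReal.ofReal_pow hx0, ← ENNReal.ofReal_mul (by positivity),
    ENNReal.ofReal_le_ofReal_iff (by positivity)] at h2
  rw [hj, hs, ← ENNReal.ofReal_pow hj0, ← ENNReal.ofReal_pow hs0,
    ← ENNReal.ofReal_mul (by positivity),
    ENNReal.ofReal_lt_ofReal_iff_of_nonneg (by positivity)] at hleft
  rw [hx, hs, ht, ← ENNReal.ofReal_mul (by positivity), ← ENNReal.ofReal_mul (by positivity),
    ← ENNReal.ofReal_add (by positivity) (by positivity),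
    ← ENNReal.ofReal_add (by positivity) (by positivity),
    ENNReal.ofReal_le_ofReal_iff hx0] at hI
  set σ := s / (4 * Real.pi * R ^ 2) with hσ
  set τ := t / (16 * R ^ 4) with hτ
  have hσ0 : 0 ≤ σ := by rw [hσ]; positivity
  have hτ0 : 0 ≤ τ := by rw [hτ]; positivity
  have hsσ : s = 4 * Real.pi * R ^ 2 * σ := by rw [hσ]; field_simp
  have htτ : t = 16 * R ^ 4 * τ := by rw [hτ]; field_simp
  have h3 : 2 * Real.pi * R ^ 3 * (σ + 1 / 3 + τ) ≤ x := by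
    refine le_trans (le_of_eq ?_) hI
    rw [hsσ, htτ]; field_simp; ring
  have h4 : x ^ 4 ≤ (4 * R ^ 3 / 3) ^ 2 * j ^ 2 := by
    calc x ^ 4 = (x ^ 2) ^ 2 := by ring
      _ ≤ (4 * R ^ 3 / 3 * j) ^ 2 := pow_le_pow_left₀ (by positivity) h2 2
      _ = _ := by ring
  have h5 : (2 * Real.pi * R ^ 3 * (σ + 1 / 3 + τ)) ^ 4 ≤ x ^ 4 :=
    pow_le_pow_left₀ (by positivity) h3 4
  have h6 : (2 * Real.pi * R ^ 3 * (σ + 1 / 3 + τ)) ^ 4 <
      (4 * R ^ 3 / 3) ^ 2 * (lam * (4 * Real.pi / 9) * s ^ 3) := by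
    refine (h5.trans h4).trans_lt ?_
    exact mul_lt_mul_of_pos_left hleft (by positivity)
  have h7 : 81 / 256 * (σ + 1 / 3 + τ) ^ 4 < lam * σ ^ 3 := by
    have e1 : (2 * Real.pi * R ^ 3 * (σ + 1 / 3 + τ)) ^ 4 =
        (4096 / 81 * Real.pi ^ 4 * R ^ 12) * (81 / 256 * (σ + 1 / 3 + τ) ^ 4) := by ring
    have e2 : (4 * R ^ 3 / 3) ^ 2 * (lam * (4 * Real.pi / 9) * s ^ 3) =
        (4096 / 81 * Real.pi ^ 4 * R ^ 12) * (lam * σ ^ 3) := by rw [hsσ]; ring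
    rw [e1, e2] at h6
    exact lt_of_mul_lt_mul_left h6 (by positivity)
  obtain ⟨h8, h9⟩ := hnum σ τ hσ0 hτ0 h7
  constructor
  · rw [hs]
    apply ENNReal.ofReal_le_ofReal
    rw [hsσ]
    have := (abs_le.1 h8).2
    apply mul_le_mul_of_nonneg_left _ (by positivity)
    linarith
  · rw [ht]
    apply ENNReal.ofReal_le_ofReal
    rw [htτ]
    have hR4 : 0 < R ^ 4 := by positivity
    nlinarith

end Pool.Agent.Lib_helper59.REV
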