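import Pool.Agent.Lib_helper59.REVM.Defs

/-! # REVM, block mF -/

open MeasureTheory Filter Topology

namespace Pool.Agent.Lib_helper59.REV

/-- three point inequality of a concave function -/
theorem mF_three (R : ℝ) (u : ℝ → ℝ) (hu : Cap R u) (x y z : ℝ) (hx : 0 ≤ x) (hxy : x < y)
    (hyz : y < z) (hz : z ≤ R) : (z - y) * u x + (y - x) * u z ≤ (z - x) * u y := by
  have h := hu.conc.neg.secant_mono_aux1 (x := x) (y := y) (z := z)
    ⟨hx, by linarith⟩ ⟨by linarith, hz⟩ hxy hyz
  simp only [Pi.neg_apply] at h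
  nlinarith

theorem mF_lip (R : ℝ) (u : ℝ → ℝ) (hu : Cap R u) (b : ℝ) (hb : b < R) (x y : ℝ) (hx : 0 ≤ x)
    (hxy : x < y) (hy : y ≤ b) : u x - u y ≤ (u b - u R) / (R - b) * (y - x) := by
  have hR : 0 < R - b := by linarith
  have h1 := mF_three R u hu x y R hx hxy (by linarith) le_rfl
  have h2 : (R - b) * (u y - u R) ≤ (R - y) * (u b - u R) := by
    rcases eq_or_lt_of_le hy with h | h
    · rw [h]
    · have := mF_three R u hu y b R (by linarith) h hb le_rfl
      nlinarith
  have h3 : (R - y) * (u x - u y) ≤ (y - x) * (u y - u R) := by nlinarith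
  have hRy : 0 < R - y := by linarith
  have h4 : (R - b) * (u x - u y) ≤ (u b - u R) * (y - x) := by
    have h5 : (R - y) * ((R - b) * (u x - u y)) ≤ (R - y) * ((u b - u R) * (y - x)) := by
      calc (R - y) * ((R - b) * (u x - u y)) = (R - b) * ((R - y) * (u x - u y)) := by ring
        _ ≤ (R - b) * ((y - x) * (u y - u R)) := by gcongr
        _ = (y - x) * ((R - b) * (u y - u R)) := by ring
        _ ≤ (y - x) * ((R - y) * (u b - u R)) := by
          have : 0 ≤ y - x := by linarith
          gcongr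
        _ = (R - y) * ((u b - u R) * (y - x)) := by ring
    exact le_of_mul_le_mul_left h5 hRy
  rw [div_mul_eq_mul_div, le_div_iff₀ hR]
  linarith

theorem mF_ac (R : ℝ) (u : ℝ → ℝ) (hu : Cap R u) (a b : ℝ) (ha : 0 ≤ a) (hab : a ≤ b)
    (hb : b < R) : AbsolutelyContinuousOnInterval u a b := by
  have hbI : b ∈ Set.Icc 0 R := ⟨by linarith, hb.le⟩
  have hRI : R ∈ Set.Icc 0 R := ⟨hu.hR.le, le_rfl⟩
  have hK : 0 ≤ (u b - u R) / (R - b) := by
    have h1 := hu.anti hbI hRI hb.le
    have : 0 < R - b := by linarith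
    apply div_nonneg <;> linarith
  have hL : LipschitzOnWith (Real.toNNReal ((u b - u R) / (R - b))) u (Set.uIcc a b) := by
    rw [Set.uIcc_of_le hab]
    apply LipschitzOnWith.of_dist_le_mul
    intro x hx y hy
    rw [Real.coe_toNNReal _ hK, Real.dist_eq, Real.dist_eq]
    have hx0 : x ∈ Set.Icc 0 R := ⟨by linarith [hx.1], by linarith [hx.2]⟩
    have hy0 : y ∈ Set.Icc 0 R := ⟨by linarith [hy.1], by linarith [hy.2]⟩
    rcases lt_trichotomy x y with h | h | h
    · have h1 := mF_lip R u hu b hb x y hx0.1 h hy.2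
      have h2 := hu.anti hx0 hy0 h.le
      rw [abs_of_nonneg (by linarith : 0 ≤ u x - u y), abs_of_neg (by linarith : x - y < 0)]
      linarith
    · rw [h]; simp
    · have h1 := mF_lip R u hu b hb y x hy0.1 h hx.2
      have h2 := hu.anti hy0 hx0 h.le
      rw [abs_of_nonpos (by linarith : u x - u y ≤ 0), abs_of_pos (by linarith : 0 < x - y)]
      linarith
  exact hL.absolutelyContinuousOnInterval

theorem mF_int (R : ℝ) (u : ℝ → ℝ) (hu : Cap R u) (a b : ℝ) (ha : 0 < a) (hab : a ≤ b)
    (hb : b < R) : IntervalIntegrable (deriv u) volume a b ∧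
      ∫ r in a..b, deriv u r = u b - u a := by
  have h := mF_ac R u hu a b ha.le hab hb
  exact ⟨h.intervalIntegrable_deriv, h.integral_deriv_eq_sub⟩

theorem mF_dnonpos (R : ℝ) (u : ℝ → ℝ) (hu : Cap R u) (r : ℝ) (h0 : 0 < r) (hr : r < R) :
    deriv u r ≤ 0 := by
  by_cases hd : DifferentiableAt ℝ u r
  · have hI : r ∈ interior (Set.Icc 0 R) := by rw [interior_Icc]; exact ⟨h0, hr⟩
    have h1 : derivWithin u (Set.Icc 0 R) r ≤ 0 := hu.anti.derivWithin_nonpos
    rwa [derivWithin_of_mem_nhds (mem_interior_iff_mem_nhds.mp hI)] at h1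
  · rw [deriv_zero_of_not_differentiableAt hd]

theorem mF_meas (u : ℝ → ℝ) : Measurable (fun r => ENNReal.ofReal (-deriv u r)) :=
  (measurable_deriv u).neg.ennreal_ofReal

theorem mF_cpt (R : ℝ) (u : ℝ → ℝ) (hu : Cap R u) (a b : ℝ) (ha : 0 < a) (hab : a ≤ b)
    (hb : b < R) : ∫⁻ r in Set.Ioc a b, ENNReal.ofReal (-deriv u r) = ENNReal.ofReal (u a - u b) := by
  obtain ⟨h1, h2⟩ := mF_int R u hu a b ha hab hb
  have h3 : IntegrableOn (fun r => -deriv u r) (Set.Ioc a b) volume :=
    ((intervalIntegrable_iff_integrableOn_Ioc_of_le hab).mp h1).neg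
  rw [← ofReal_integral_eq_lintegral_ofReal h3]
  · congr 1
    rw [intervalIntegral.integral_of_le hab] at h2
    rw [integral_neg, h2]; ring
  · rw [EventuallyLE, ae_restrict_iff' measurableSet_Ioc]
    refine Eventually.of_forall fun r hr => ?_
    have := mF_dnonpos R u hu r (by linarith [hr.1]) (by linarith [hr.2])
    simp only [Pi.zero_apply]
    linarith

theorem mF_ftc (R : ℝ) (u : ℝ → ℝ) (hu : Cap R u) (a b : ℝ) (ha : 0 ≤ a) (hab : a ≤ b)
    (hb : b ≤ R) : ∫⁻ r in Set.Ioo a b, ENNReal.ofReal (-deriv u r) = ENNReal.ofReal (u a - u b) := by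
  rcases eq_or_lt_of_le hab with h | hlt
  · subst h; simp
  set d : ℝ := b - a with hd
  have hd0 : 0 < d := by rw [hd]; linarith
  set s : ℕ → ℝ := fun n => d / ((n : ℝ) + 2) with hs
  have hs0 : ∀ n, 0 < s n := fun n => by simp only [hs]; positivity
  have hs1 : ∀ n, s n ≤ d / 2 := fun n => by
    simp only [hs]
    have : (0:ℝ) ≤ n := Nat.cast_nonneg n
    apply div_le_div_of_nonneg_left hd0.le (by norm_num); linarith
  have hsa : Antitone s := by
    intro m n hmn
    simp only [hs]
    have : (m:ℝ) ≤ n := Nat.cast_le.mpr hmn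
    have h0 : (0:ℝ) ≤ m := Nat.cast_nonneg m
    apply div_le_div_of_nonneg_left hd0.le (by linarith); linarith
  have hst : Tendsto s atTop (𝓝 0) := by
    have h1 : Tendsto (fun n : ℕ => (n : ℝ) + 2) atTop atTop :=
      tendsto_atTop_add_const_right _ _ tendsto_natCast_atTop_atTop
    exact tendsto_const_nhds.div_atTop h1
  have hmono : Monotone (fun n => Set.Ioc (a + s n) (b - s n)) := by
    intro m n hmn
    have := hsa hmn
    exact Set.Ioc_subset_Ioc (by linarith) (by linarith)
  have hun : (⋃ n, Set.Ioc (a + s n) (b - s n)) = Set.Ioo a b := by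
    ext x
    simp only [Set.mem_iUnion, Set.mem_Ioc, Set.mem_Ioo]
    constructor
    · rintro ⟨n, h1, h2⟩
      have := hs0 n
      exact ⟨by linarith, by linarith⟩
    · rintro ⟨h1, h2⟩
      have h3 : ∀ᶠ n in atTop, s n < min (x - a) (b - x) :=
        hst.eventually (gt_mem_nhds (lt_min (by linarith) (by linarith)))
      obtain ⟨n, hn⟩ := h3.exists
      have h4 := lt_of_lt_of_le hn (min_le_left _ _)
      have h5 := lt_of_lt_of_le hn (min_le_right _ _)
      exact ⟨n, by linarith, by linarith⟩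
  have key := tendsto_measure_iUnion_atTop
    (μ := (volume : Measure ℝ).withDensity (fun r => ENNReal.ofReal (-deriv u r))) hmono
  rw [hun, withDensity_apply _ measurableSet_Ioo] at key
  have hval : ∀ n, ((volume : Measure ℝ).withDensity (fun r => ENNReal.ofReal (-deriv u r)) ∘
      fun n => Set.Ioc (a + s n) (b - s n)) n = ENNReal.ofReal (u (a + s n) - u (b - s n)) := by
    intro n
    have h1 := hs0 n
    have h2 := hs1 n
    rw [Function.comp_apply, withDensity_apply _ measurableSet_Ioc]
    apply mF_cpt R u hu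
    · linarith
    · linarith
    · linarith
  have hca : Tendsto (fun n => u (a + s n)) atTop (𝓝 (u a)) := by
    have hc := hu.cont a ⟨ha, by linarith⟩
    have h1 : Tendsto (fun n => a + s n) atTop (𝓝[Set.Icc 0 R] a) := by
      apply tendsto_nhdsWithin_iff.mpr
      refine ⟨?_, Eventually.of_forall fun n => ?_⟩
      · have := hst.const_add a; rwa [add_zero] at this
      · have h1 := hs0 n
        have h2 := hs1 n
        exact ⟨by linarith, by linarith⟩
    exact hc.tendsto.comp h1
  have hcb : Tendsto (fun n => u (b - s n)) atTop (𝓝 (u b)) := by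
    have hc := hu.cont b ⟨by linarith, hb⟩
    have h1 : Tendsto (fun n => b - s n) atTop (𝓝[Set.Icc 0 R] b) := by
      apply tendsto_nhdsWithin_iff.mpr
      refine ⟨?_, Eventually.of_forall fun n => ?_⟩
      · have := hst.const_sub b; rwa [sub_zero] at this
      · have h1 := hs0 n
        have h2 := hs1 n
        exact ⟨by linarith, by linarith⟩
    exact hc.tendsto.comp h1
  have hlim : Tendsto (fun n => ENNReal.ofReal (u (a + s n) - u (b - s n))) atTop
      (𝓝 (ENNReal.ofReal (u a - u b))) :=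
    (ENNReal.continuous_ofReal.tendsto _).comp (hca.sub hcb)
  exact tendsto_nhds_unique key (hlim.congr fun n => (hval n).symm)

end Pool.Agent.Lib_helper59.REV
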