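import Pool.Agent.Lib_helper59.REVM.Defs
import Pool.Agent.Lib_helper59.REVMF.mF
import Pool.Agent.Lib_helper59.REVF.eqI

/-! # REVM, block mG -/

open MeasureTheory Filter Topology

namespace Pool.Agent.Lib_helper59.REV

theorem mG_alg (R k r q g : ℝ) (h0 : 0 < r) (hR : 0 < R) (hrR : r ≤ R) (hk : 0 < k) (hkR : k ≤ R)
    (hkk : k ^ 2 + r ^ 2 = R ^ 2) (hq : 0 ≤ q) (hg : 0 ≤ g) (hgg : g ^ 2 = 1 + q ^ 2) :
    r * k * |q - r / k| ≤ 3 * R * |R - k * g| := by
  -- multiply out: k q - r, R - k g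
  have e1 : k * |q - r / k| = |k * q - r| := by
    have : k * q - r = k * (q - r / k) := by field_simp
    rw [this, abs_mul, abs_of_pos hk]
  have e2 : r * k * |q - r / k| = r * |k * q - r| := by rw [mul_assoc, e1]
  rw [e2]
  have hgq : g ≤ 1 + q := by nlinarith
  have h1 : |k * q - r| * (k * q + r) = |R - k * g| * (R + k * g) := by
    have a1 : |k * q - r| * (k * q + r) = |(k * q - r) * (k * q + r)| := by
      rw [abs_mul, abs_of_nonneg (by positivity : 0 ≤ k * q + r)]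
    have a2 : |R - k * g| * (R + k * g) = |(R - k * g) * (R + k * g)| := by
      rw [abs_mul, abs_of_nonneg (by positivity : 0 ≤ R + k * g)]
    rw [a1, a2]
    have : (k * q - r) * (k * q + r) = -((R - k * g) * (R + k * g)) := by
      have : k ^ 2 * g ^ 2 = k ^ 2 * (1 + q ^ 2) := by rw [hgg]
      nlinarith
    rw [this, abs_neg]
  have hpos : 0 < k * q + r := by positivity
  have h2 : r * (R + k * g) ≤ 3 * R * (k * q + r) := by
    have b1 : k * g ≤ R + k * q := by nlinarith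
    have b2 : r * (R + k * g) ≤ r * (2 * R + k * q) := by
      apply mul_le_mul_of_nonneg_left _ h0.le
      linarith
    have b3 : 0 ≤ k * q := by positivity
    nlinarith
  have h3 : 0 ≤ |R - k * g| := abs_nonneg _
  have h4 : r * |k * q - r| * (k * q + r) ≤ 3 * R * |R - k * g| * (k * q + r) := by
    calc r * |k * q - r| * (k * q + r) = r * (|R - k * g| * (R + k * g)) := by rw [← h1]; ring
      _ = |R - k * g| * (r * (R + k * g)) := by ring
      _ ≤ |R - k * g| * (3 * R * (k * q + r)) := mul_le_mul_of_nonneg_left h2 h3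
      _ = _ := by ring
  exact le_of_mul_le_mul_right h4 hpos

theorem mG_pt (R : ℝ) (f : ℝ → ℝ) (r : ℝ) (h0 : 0 < r) (h1 : r < R) (hd : deriv f r ≤ 0) :
    r * √(R ^ 2 - r ^ 2) * |(-deriv f r) - r / √(R ^ 2 - r ^ 2)| ≤
      3 * R * |R - √(R ^ 2 - r ^ 2) * gr f r| := by
  have hp : 0 < R ^ 2 - r ^ 2 := by nlinarith
  have hs := Real.sq_sqrt hp.le
  have hk : 0 < √(R ^ 2 - r ^ 2) := Real.sqrt_pos.2 hp
  refine mG_alg R _ r (-deriv f r) (gr f r) h0 (by linarith) h1.le hk ?_ (by linarith)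
    (by linarith) (Real.sqrt_nonneg _) ?_
  · rw [show R = √(R ^ 2) from (Real.sqrt_sq (by linarith)).symm]
    apply Real.sqrt_le_sqrt
    rw [Real.sqrt_sq (by linarith)]
    nlinarith [sq_nonneg r]
  · unfold gr
    rw [Real.sq_sqrt (by positivity)]
    ring

theorem mG_neg (R : ℝ) (u : ℝ → ℝ) (hu : Cap R u) (r : ℝ) (h0 : 0 < r) (h1 : r < R) :
    deriv u r ≤ 0 := by
  have h2 : Set.Icc 0 R ∈ 𝓝 r := Icc_mem_nhds h0 h1
  rw [← derivWithin_of_mem_nhds h2]
  exact hu.anti.derivWithin_nonpos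

theorem mG_main (R : ℝ) (u : ℝ → ℝ) (hu : Cap R u) (a b e : ℝ) (ha : 0 < a) (hab : a ≤ b)
    (hb : b < R) (he : 0 ≤ e) (hE : E1 R u ≤ ENNReal.ofReal e) :
    |(u a - u b) - (√(R ^ 2 - a ^ 2) - √(R ^ 2 - b ^ 2))| ≤
      3 * R * e / (a ^ 2 * √(R ^ 2 - b ^ 2)) := by
  obtain ⟨hi, hint⟩ := mF_int R u hu a b ha hab hb
  have hR := hu.hR
  have hpb : 0 < R ^ 2 - b ^ 2 := by nlinarith
  have hkb : 0 < √(R ^ 2 - b ^ 2) := Real.sqrt_pos.2 hpb
  set c : ℝ := a ^ 2 * √(R ^ 2 - b ^ 2) with hc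
  have hc0 : 0 < c := by positivity
  -- the function k
  have hsub : Set.uIcc a b ⊆ Set.Ioo 0 R := by
    rw [Set.uIcc_of_le hab]
    intro x hx
    exact ⟨lt_of_lt_of_le ha hx.1, lt_of_le_of_lt hx.2 hb⟩
  have hcont : ContinuousOn (fun r : ℝ => -(r / √(R ^ 2 - r ^ 2))) (Set.uIcc a b) :=
    fun x hx => (eqI_cont R x (hsub hx)).continuousWithinAt
  have hki : IntervalIntegrable (fun r : ℝ => -(r / √(R ^ 2 - r ^ 2))) volume a b :=
    hcont.intervalIntegrable
  have hkint : ∫ r in a..b, -(r / √(R ^ 2 - r ^ 2)) = √(R ^ 2 - b ^ 2) - √(R ^ 2 - a ^ 2) :=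
    intervalIntegral.integral_eq_sub_of_hasDerivAt (fun x hx => eqI_deriv R x (hsub hx)) hki
  set h : ℝ → ℝ := fun r => -(r / √(R ^ 2 - r ^ 2)) - deriv u r with hh
  have hhi : IntervalIntegrable h volume a b := hki.sub hi
  have e1 : (u a - u b) - (√(R ^ 2 - a ^ 2) - √(R ^ 2 - b ^ 2)) = ∫ r in a..b, h r := by
    rw [hh, intervalIntegral.integral_sub hki hi, hint, hkint]; ring
  have e2 : ∀ r, h r = (-deriv u r) - r / √(R ^ 2 - r ^ 2) := fun r => by rw [hh]; ring
  rw [e1, le_div_iff₀ hc0]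
  have h3 : |∫ r in a..b, h r| ≤ ∫ r in a..b, |h r| := by
    simpa [Real.norm_eq_abs] using intervalIntegral.norm_integral_le_integral_norm hab (f := h)
  have h4 : ENNReal.ofReal (c * ∫ r in a..b, |h r|) ≤ ENNReal.ofReal (3 * R * e) := by
    have f1 : IntegrableOn (fun r => |h r|) (Set.Ioo a b) volume := by
      have := (intervalIntegrable_iff_integrableOn_Ioo_of_le hab).1 hhi.abs
      exact this
    have f2 : ∫ r in a..b, |h r| = ∫ r in Set.Ioo a b, |h r| := by
      rw [intervalIntegral.integral_of_le hab, integral_Ioc_eq_integral_Ioo]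
    rw [ENNReal.ofReal_mul hc0.le, f2,
      ofReal_integral_eq_lintegral_ofReal f1 (ae_of_all _ fun _ => abs_nonneg _),
      ← lintegral_const_mul' _ _ ENNReal.ofReal_ne_top]
    calc ∫⁻ r in Set.Ioo a b, ENNReal.ofReal c * ENNReal.ofReal |h r|
        ≤ ∫⁻ r in Set.Ioo a b, ENNReal.ofReal (3 * R) *
            ENNReal.ofReal (r * |R - √(R ^ 2 - r ^ 2) * gr u r|) := by
          refine setLIntegral_mono' measurableSet_Ioo fun r hr => ?_
          have hr0 : 0 < r := ha.trans hr.1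
          have hrR : r < R := hr.2.trans hb
          rw [← ENNReal.ofReal_mul hc0.le, ← ENNReal.ofReal_mul (by positivity)]
          apply ENNReal.ofReal_le_ofReal
          rw [e2]
          have p1 := mG_pt R u r hr0 hrR (mG_neg R u hu r hr0 hrR)
          have p2 : √(R ^ 2 - b ^ 2) ≤ √(R ^ 2 - r ^ 2) := by
            apply Real.sqrt_le_sqrt
            nlinarith [hr.2]
          have p3 : a ^ 2 ≤ r * r := by nlinarith [hr.1]
          calc c * |-deriv u r - r / √(R ^ 2 - r ^ 2)|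
              ≤ (r * r * √(R ^ 2 - r ^ 2)) * |-deriv u r - r / √(R ^ 2 - r ^ 2)| := by
                rw [hc]; gcongr
            _ = r * (r * √(R ^ 2 - r ^ 2) * |-deriv u r - r / √(R ^ 2 - r ^ 2)|) := by ring
            _ ≤ r * (3 * R * |R - √(R ^ 2 - r ^ 2) * gr u r|) :=
                mul_le_mul_of_nonneg_left p1 hr0.le
            _ = _ := by ring
      _ = ENNReal.ofReal (3 * R) * ∫⁻ r in Set.Ioo a b,
            ENNReal.ofReal (r * |R - √(R ^ 2 - r ^ 2) * gr u r|) :=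
          lintegral_const_mul' _ _ ENNReal.ofReal_ne_top
      _ ≤ ENNReal.ofReal (3 * R) * E1 R u := by
          gcongr
          unfold E1
          exact lintegral_mono_set (Set.Ioo_subset_Ioo ha.le hb.le)
      _ ≤ ENNReal.ofReal (3 * R) * ENNReal.ofReal e := by gcongr
      _ = ENNReal.ofReal (3 * R * e) := (ENNReal.ofReal_mul (by positivity)).symm
  have h5 := (ENNReal.ofReal_le_ofReal_iff (by positivity)).1 h4
  have h6 : |∫ r in a..b, h r| * c ≤ (∫ r in a..b, |h r|) * c :=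
    mul_le_mul_of_nonneg_right h3 hc0.le
  linarith

end Pool.Agent.Lib_helper59.REV
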