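import Pool.Agent.Lib_helper59.REVM.Defs

/-! # REVM, block mH (helper45) -/

open MeasureTheory Filter Topology

namespace Pool.Agent.Lib_helper59.REV

theorem mH_deriv (R r : ℝ) (hr : 0 < R ^ 2 - r ^ 2) :
    HasDerivAt (fun x : ℝ => -(R * √(R ^ 2 - x ^ 2))) (r * R / √(R ^ 2 - r ^ 2)) r := by
  have h1 : HasDerivAt (fun x : ℝ => R ^ 2 - x ^ 2) (-(2 * r)) r := by
    have := (hasDerivAt_pow 2 r).const_sub (R ^ 2)
    simpa using this
  have h2 := ((h1.sqrt hr.ne').const_mul R).neg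
  refine h2.congr_deriv ?_
  have : √(R ^ 2 - r ^ 2) ≠ 0 := (Real.sqrt_pos.mpr hr).ne'
  field_simp

theorem mH_int (R b : ℝ) (hb0 : 0 < b) (hb : b < R) :
    ∫⁻ r in Set.Ioo 0 b, ENNReal.ofReal (r * R / √(R ^ 2 - r ^ 2)) =
      ENNReal.ofReal (R * (R - √(R ^ 2 - b ^ 2))) := by
  have hpos : ∀ r ∈ Set.Icc 0 b, 0 < R ^ 2 - r ^ 2 := by
    intro r hr
    have := hr.1
    have := hr.2
    nlinarith
  have hc : ContinuousOn (fun x : ℝ => -(R * √(R ^ 2 - x ^ 2))) (Set.Icc 0 b) := by fun_prop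
  have hcont : ContinuousOn (fun r : ℝ => r * R / √(R ^ 2 - r ^ 2)) (Set.Icc 0 b) := by
    apply ContinuousOn.div
    · fun_prop
    · fun_prop
    · intro r hr
      exact (Real.sqrt_pos.mpr (hpos r hr)).ne'
  have hint : IntervalIntegrable (fun r : ℝ => r * R / √(R ^ 2 - r ^ 2)) volume 0 b := by
    apply ContinuousOn.intervalIntegrable
    rwa [Set.uIcc_of_le hb0.le]
  have hval := intervalIntegral.integral_eq_sub_of_hasDerivAt_of_le hb0.le hc
    (fun r hr => mH_deriv R r (hpos r ⟨hr.1.le, hr.2.le⟩)) hint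
  have hval2 : ∫ r in (0:ℝ)..b, r * R / √(R ^ 2 - r ^ 2) = R * (R - √(R ^ 2 - b ^ 2)) := by
    rw [hval]
    have : √(R ^ 2 - (0:ℝ) ^ 2) = R := by
      rw [show R ^ 2 - (0:ℝ) ^ 2 = R ^ 2 by ring, Real.sqrt_sq (by linarith)]
    rw [this]
    ring
  rw [intervalIntegral.integral_of_le hb0.le, integral_Ioc_eq_integral_Ioo] at hval2
  have hI : IntegrableOn (fun r : ℝ => r * R / √(R ^ 2 - r ^ 2)) (Set.Ioo 0 b) volume :=
    (intervalIntegrable_iff_integrableOn_Ioo_of_le hb0.le).mp hint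
  rw [← ofReal_integral_eq_lintegral_ofReal hI, hval2]
  filter_upwards [self_mem_ae_restrict (μ := volume) (measurableSet_Ioo (a := (0:ℝ)) (b := b))]
    with r hr
  exact div_nonneg (mul_nonneg hr.1.le (by linarith)) (Real.sqrt_nonneg _)

theorem mH_pt (R b r g : ℝ) (hr0 : 0 < r) (hr : r < b) (hb : b < R) :
    r * R / √(R ^ 2 - r ^ 2) ≤
      r * g + r * |R - √(R ^ 2 - r ^ 2) * g| * (1 / √(R ^ 2 - b ^ 2)) := by
  have hb2 : 0 < R ^ 2 - b ^ 2 := by nlinarith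
  have hr2 : 0 < R ^ 2 - r ^ 2 := by nlinarith
  have hk : 0 < √(R ^ 2 - b ^ 2) := Real.sqrt_pos.mpr hb2
  have hkr : 0 < √(R ^ 2 - r ^ 2) := Real.sqrt_pos.mpr hr2
  have hle : √(R ^ 2 - b ^ 2) ≤ √(R ^ 2 - r ^ 2) := Real.sqrt_le_sqrt (by nlinarith)
  set k := √(R ^ 2 - r ^ 2) with hkk
  set kb := √(R ^ 2 - b ^ 2) with hkb
  have h1 : R ≤ k * g + |R - k * g| := by
    have := le_abs_self (R - k * g)
    linarith
  have h2 : |R - k * g| ≤ k * (|R - k * g| * (1 / kb)) := by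
    have h3 : 1 ≤ k * (1 / kb) := by
      rw [mul_one_div, one_le_div hk]
      exact hle
    calc |R - k * g| = |R - k * g| * 1 := by ring
      _ ≤ |R - k * g| * (k * (1 / kb)) := by gcongr
      _ = _ := by ring
  rw [div_le_iff₀ hkr]
  calc r * R ≤ r * (k * g + k * (|R - k * g| * (1 / kb))) := by
        apply mul_le_mul_of_nonneg_left _ hr0.le
        linarith
    _ = _ := by ring

theorem mH_main (R : ℝ) (f : ℝ → ℝ) (b e : ℝ) (hb0 : 0 < b) (hb : b < R) (he : 0 ≤ e)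
    (hE : E1 R f ≤ ENNReal.ofReal e) :
    ENNReal.ofReal (R * (R - √(R ^ 2 - b ^ 2))) ≤
      I1 f 0 b + ENNReal.ofReal (e / √(R ^ 2 - b ^ 2)) := by
  have hmg : Measurable (gr f) := by
    unfold gr
    exact ((measurable_const.add ((measurable_deriv f).pow_const 2))).sqrt
  have hb2 : 0 < R ^ 2 - b ^ 2 := by nlinarith
  have hk : 0 < √(R ^ 2 - b ^ 2) := Real.sqrt_pos.mpr hb2
  rw [← mH_int R b hb0 hb]
  have h1 : ∫⁻ r in Set.Ioo 0 b, ENNReal.ofReal (r * R / √(R ^ 2 - r ^ 2)) ≤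
      ∫⁻ r in Set.Ioo 0 b, (ENNReal.ofReal (r * gr f r) +
        ENNReal.ofReal (r * |R - √(R ^ 2 - r ^ 2) * gr f r|) *
          ENNReal.ofReal (1 / √(R ^ 2 - b ^ 2))) := by
    apply setLIntegral_mono' measurableSet_Ioo
    intro r hr
    have h2 := mH_pt R b r (gr f r) hr.1 hr.2 hb
    refine (ENNReal.ofReal_le_ofReal h2).trans ?_
    refine ENNReal.ofReal_add_le.trans ?_
    rw [ENNReal.ofReal_mul (mul_nonneg hr.1.le (abs_nonneg _))]
  refine h1.trans ?_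
  rw [lintegral_add_left (by fun_prop), lintegral_mul_const' _ _ ENNReal.ofReal_ne_top]
  have h3 : ∫⁻ r in Set.Ioo 0 b, ENNReal.ofReal (r * |R - √(R ^ 2 - r ^ 2) * gr f r|) ≤
      ENNReal.ofReal e := by
    refine le_trans ?_ hE
    unfold E1
    exact lintegral_mono_set (Set.Ioo_subset_Ioo_right hb.le)
  have h4 : ENNReal.ofReal (e / √(R ^ 2 - b ^ 2)) =
      ENNReal.ofReal e * ENNReal.ofReal (1 / √(R ^ 2 - b ^ 2)) := by
    rw [← ENNReal.ofReal_mul he]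
    congr 1
    ring
  rw [h4]
  unfold I1
  gcongr

end Pool.Agent.Lib_helper59.REV
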