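import Pool.Agent.Lib_helper59.REVM.Defs
import Pool.Agent.Lib_helper59.REVMF.mC
import Pool.Agent.Lib_helper59.REVMF.mH
import Pool.Agent.Lib_helper59.REVMF.mF

/-! # REVM, block mI -/

open MeasureTheory Filter Topology

namespace Pool.Agent.Lib_helper59.REV

theorem mI_part (R : ℝ) (f : ℝ → ℝ) (hf : Cap R f) (b : ℝ) (hb0 : 0 < b) (hb : b < R) :
    I1 f 0 b + ENNReal.ofReal (b * (f b - f R)) ≤ I1 f 0 R := by
  have h1 : ENNReal.ofReal (b * (f b - f R)) ≤ I1 f b R := by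
    have hms : Measurable (fun r : ℝ => ENNReal.ofReal (-deriv f r)) :=
      (measurable_deriv f).neg.ennreal_ofReal
    rw [ENNReal.ofReal_mul hb0.le, ← mF_ftc R f hf b R hb0.le hb.le le_rfl,
      ← lintegral_const_mul _ hms]
    unfold I1
    refine setLIntegral_mono' measurableSet_Ioo (fun r hr => ?_)
    rw [← ENNReal.ofReal_mul hb0.le]
    apply ENNReal.ofReal_le_ofReal
    have hg : -deriv f r ≤ gr f r := by
      unfold gr
      apply Real.le_sqrt_of_sq_le
      nlinarith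
    have hg0 : 0 ≤ gr f r := Real.sqrt_nonneg _
    calc b * -deriv f r ≤ b * gr f r := mul_le_mul_of_nonneg_left hg hb0.le
      _ ≤ r * gr f r := mul_le_mul_of_nonneg_right hr.1.le hg0
  have h2 : I1 f 0 b + I1 f b R ≤ I1 f 0 R := by
    unfold I1
    have hd : Disjoint (Set.Ioo (0:ℝ) b) (Set.Ioo b R) := by
      rw [Set.disjoint_left]
      intro x hx hx'
      exact lt_asymm hx.2 hx'.1
    rw [← lintegral_union measurableSet_Ioo hd]
    apply lintegral_mono_set
    intro x hx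
    rcases hx with hx | hx
    · exact ⟨hx.1, hx.2.trans hb⟩
    · exact ⟨hb0.trans hx.1, hx.2⟩
  exact (add_le_add le_rfl h1).trans h2

theorem mI_sum (R : ℝ) (u v : ℝ → ℝ) (h : Prof R u v) (M : ℝ)
    (hS : S1 R u v ≤ ENNReal.ofReal (2 * Real.pi * M)) :
    I1 u 0 R + I1 v 0 R + ENNReal.ofReal (R * (u R + v R)) ≤ ENNReal.ofReal M := by
  have hp : (0:ℝ) < 2 * Real.pi := by positivity
  rw [mC_S1 R u v h, ENNReal.ofReal_mul hp.le] at hS
  have h0 : ENNReal.ofReal (2 * Real.pi) ≠ 0 := by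
    simpa using hp
  exact (ENNReal.mul_le_mul_iff_right h0 ENNReal.ofReal_ne_top).1 hS

theorem mI_main (R : ℝ) (u v : ℝ → ℝ) (h : Prof R u v) (δ b e : ℝ) (hδ : 0 ≤ δ) (hb0 : 0 < b)
    (hb : b < R) (he : 0 ≤ e) (hS : S1 R u v ≤ ENNReal.ofReal (4 * Real.pi * R ^ 2 * (1 + δ)))
    (hEu : E1 R u ≤ ENNReal.ofReal e) (hEv : E1 R v ≤ ENNReal.ofReal e) :
    b * (u b - u R) + b * (v b - v R) + R * (u R + v R) ≤
      2 * R ^ 2 * δ + 2 * R * √(R ^ 2 - b ^ 2) + 2 * e / √(R ^ 2 - b ^ 2) := by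
  have hR : 0 < R := h.cu.hR
  have hbm : b ∈ Set.Icc (0:ℝ) R := ⟨hb0.le, hb.le⟩
  have hRm : R ∈ Set.Icc (0:ℝ) R := ⟨hR.le, le_rfl⟩
  have hu : 0 ≤ u b - u R := sub_nonneg.2 (h.cu.anti hbm hRm hb.le)
  have hv : 0 ≤ v b - v R := sub_nonneg.2 (h.cv.anti hbm hRm hb.le)
  set k := √(R ^ 2 - b ^ 2) with hk
  have hk0 : 0 ≤ k := Real.sqrt_nonneg _
  have hkR : k ≤ R := by
    rw [hk]; apply Real.sqrt_le_iff.2; constructor
    · exact hR.le
    · nlinarith
  have hek : 0 ≤ e / k := div_nonneg he hk0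
  have hH := mH_main R u b e hb0 hb he hEu
  have hH' := mH_main R v b e hb0 hb he hEv
  rw [← hk] at hH hH'
  have hsum := mI_sum R u v h (2 * R ^ 2 * (1 + δ)) (by
    refine hS.trans (le_of_eq ?_); congr 1; ring)
  have hpu := mI_part R u h.cu b hb0 hb
  have hpv := mI_part R v h.cv b hb0 hb
  have n1 : 0 ≤ R * (R - k) := mul_nonneg hR.le (sub_nonneg.2 hkR)
  have n2 : 0 ≤ b * (u b - u R) := mul_nonneg hb0.le hu
  have n3 : 0 ≤ b * (v b - v R) := mul_nonneg hb0.le hv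
  have n4 : 0 ≤ R * (u R + v R) := mul_nonneg hR.le h.hh
  have key : ENNReal.ofReal (R * (R - k) + R * (R - k) + b * (u b - u R) + b * (v b - v R) +
      R * (u R + v R)) ≤ ENNReal.ofReal (2 * R ^ 2 * (1 + δ) + e / k + e / k) := by
    rw [ENNReal.ofReal_add (by positivity) n4, ENNReal.ofReal_add (by positivity) n3,
      ENNReal.ofReal_add (by positivity) n2, ENNReal.ofReal_add n1 n1,
      ENNReal.ofReal_add (by positivity) hek, ENNReal.ofReal_add (by positivity) hek]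
    calc ENNReal.ofReal (R * (R - k)) + ENNReal.ofReal (R * (R - k)) +
          ENNReal.ofReal (b * (u b - u R)) + ENNReal.ofReal (b * (v b - v R)) +
          ENNReal.ofReal (R * (u R + v R))
        ≤ (I1 u 0 b + ENNReal.ofReal (e / k)) + (I1 v 0 b + ENNReal.ofReal (e / k)) +
          ENNReal.ofReal (b * (u b - u R)) + ENNReal.ofReal (b * (v b - v R)) +
          ENNReal.ofReal (R * (u R + v R)) := by gcongr
      _ = (I1 u 0 b + ENNReal.ofReal (b * (u b - u R))) +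
          (I1 v 0 b + ENNReal.ofReal (b * (v b - v R))) +
          ENNReal.ofReal (R * (u R + v R)) + ENNReal.ofReal (e / k) + ENNReal.ofReal (e / k) := by
          ring
      _ ≤ I1 u 0 R + I1 v 0 R + ENNReal.ofReal (R * (u R + v R)) + ENNReal.ofReal (e / k) +
          ENNReal.ofReal (e / k) := by gcongr
      _ ≤ ENNReal.ofReal (2 * R ^ 2 * (1 + δ)) + ENNReal.ofReal (e / k) +
          ENNReal.ofReal (e / k) := by gcongr
  have key2 := (ENNReal.ofReal_le_ofReal_iff (by positivity)).1 key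
  have : 2 * e / k = e / k + e / k := by ring
  rw [this]
  nlinarith

end Pool.Agent.Lib_helper59.REV
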