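import Pool.Agent.Lib_helper59.REVM.Defs
import Pool.Agent.Lib_helper59.REVF.eqF

/-! # REVM, block mE -/

open MeasureTheory Filter Topology

namespace Pool.Agent.Lib_helper59.REV

theorem mE_gr (f : ℝ → ℝ) (r : ℝ) : 1 ≤ gr f r := by
  unfold gr
  rw [Real.one_le_sqrt]
  nlinarith [sq_nonneg (deriv f r)]

theorem mE_meas (f : ℝ → ℝ) : Measurable (gr f) := by
  unfold gr
  exact ((measurable_const.add ((measurable_deriv f).pow_const 2))).sqrt

theorem mE_cs (R : ℝ) (f : ℝ → ℝ) : E1 R f ^ 2 ≤ DD R f * I1 f 0 R := by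
  have hm := mE_meas f
  set w : ℝ → ENNReal := fun r =>
    ENNReal.ofReal (√(r / gr f r) * |R - √(R ^ 2 - r ^ 2) * gr f r|) with hw
  set L : ℝ → ENNReal := fun r => ENNReal.ofReal (√(r * gr f r)) with hL
  have hwm : Measurable w := by
    rw [hw]
    apply Measurable.ennreal_ofReal
    apply Measurable.mul
    · exact (measurable_id.div hm).sqrt
    · have h1 : Measurable (fun r : ℝ => R - √(R ^ 2 - r ^ 2) * gr f r) :=
        measurable_const.sub ((measurable_const.sub (measurable_id.pow_const 2)).sqrt.mul hm)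
      exact h1.norm
  have hLm : Measurable L := by
    rw [hL]
    exact ((measurable_id.mul hm).sqrt).ennreal_ofReal
  have h := eqF_cs (volume.restrict (Set.Ioo 0 R)) w L hwm.aemeasurable hLm.aemeasurable
  have e1 : ∫⁻ r in Set.Ioo 0 R, w r * L r = E1 R f := by
    unfold E1
    refine setLIntegral_congr_fun measurableSet_Ioo fun r hr => ?_
    have hr0 : 0 < r := hr.1
    have hg : 0 < gr f r := lt_of_lt_of_le one_pos (mE_gr f r)
    simp only [hw, hL]
    rw [← ENNReal.ofReal_mul (by positivity)]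
    congr 1
    have h1 : √(r / gr f r) * √(r * gr f r) = r := by
      rw [← Real.sqrt_mul (by positivity)]
      have h2 : r / gr f r * (r * gr f r) = r ^ 2 := by field_simp
      rw [h2, Real.sqrt_sq hr0.le]
    calc √(r / gr f r) * |R - √(R ^ 2 - r ^ 2) * gr f r| * √(r * gr f r) =
        √(r / gr f r) * √(r * gr f r) * |R - √(R ^ 2 - r ^ 2) * gr f r| := by ring
      _ = _ := by rw [h1]
  have e2 : ∫⁻ r in Set.Ioo 0 R, w r ^ 2 = DD R f := by
    unfold DD
    refine setLIntegral_congr_fun measurableSet_Ioo fun r hr => ?_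
    have hr0 : 0 < r := hr.1
    have hg : 0 < gr f r := lt_of_lt_of_le one_pos (mE_gr f r)
    simp only [hw]
    rw [← ENNReal.ofReal_pow (by positivity)]
    congr 1
    rw [mul_pow, Real.sq_sqrt (by positivity), sq_abs]
    ring
  have e3 : ∫⁻ r in Set.Ioo 0 R, L r ^ 2 = I1 f 0 R := by
    unfold I1
    refine setLIntegral_congr_fun measurableSet_Ioo fun r hr => ?_
    have hr0 : 0 < r := hr.1
    have hg : 0 < gr f r := lt_of_lt_of_le one_pos (mE_gr f r)
    simp only [hL]
    rw [← ENNReal.ofReal_pow (by positivity), Real.sq_sqrt (by positivity)]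
  rw [e1, e2, e3] at h
  exact h

end Pool.Agent.Lib_helper59.REV
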