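import Pool.Agent.Lib_helper59.REVM.Defs
import Pool.Agent.Lib_helper59.REVMF.mC
import Pool.Agent.Lib_helper59.REVMF.mE

/-! # REVM, block mJ -/

open MeasureTheory Filter Topology

namespace Pool.Agent.Lib_helper59.REV

theorem mJ_sum (R : ℝ) (u v : ℝ → ℝ) (h : Prof R u v) (M : ℝ)
    (hS : S1 R u v ≤ ENNReal.ofReal (2 * Real.pi * M)) :
    I1 u 0 R + I1 v 0 R + ENNReal.ofReal (R * (u R + v R)) ≤ ENNReal.ofReal M := by
  have hp : (0:ℝ) < 2 * Real.pi := by positivity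
  rw [mC_S1 R u v h, ENNReal.ofReal_mul hp.le] at hS
  have h0 : ENNReal.ofReal (2 * Real.pi) ≠ 0 := by
    simpa using hp
  exact (ENNReal.mul_le_mul_iff_right h0 ENNReal.ofReal_ne_top).1 hS

theorem mJ_one (R : ℝ) (hR : 0 < R) (f : ℝ → ℝ) (δ : ℝ) (hδ : 0 ≤ δ)
    (hI : I1 f 0 R ≤ ENNReal.ofReal (4 * R ^ 2)) (hD : DD R f ≤ ENNReal.ofReal (δ * R ^ 4)) :
    E1 R f ≤ ENNReal.ofReal (2 * √δ * R ^ 3) := by
  have h1 : E1 R f ^ 2 ≤ ENNReal.ofReal (2 * √δ * R ^ 3) ^ 2 := by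
    calc E1 R f ^ 2 ≤ DD R f * I1 f 0 R := mE_cs R f
      _ ≤ ENNReal.ofReal (δ * R ^ 4) * ENNReal.ofReal (4 * R ^ 2) := by gcongr
      _ = ENNReal.ofReal (2 * √δ * R ^ 3) ^ 2 := by
        rw [← ENNReal.ofReal_mul (by positivity), ← ENNReal.ofReal_pow (by positivity)]
        congr 1
        have : √δ ^ 2 = δ := Real.sq_sqrt hδ
        calc δ * R ^ 4 * (4 * R ^ 2) = 4 * (δ) * R ^ 6 := by ring
          _ = 4 * (√δ ^ 2) * R ^ 6 := by rw [this]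
          _ = (2 * √δ * R ^ 3) ^ 2 := by ring
  by_contra hc
  push Not at hc
  exact absurd h1 (not_le.2 (ENNReal.pow_lt_pow_left two_ne_zero hc))

theorem mJ_e (R : ℝ) (u v : ℝ → ℝ) (h : Prof R u v) (δ : ℝ) (hδ : 0 ≤ δ) (hδ1 : δ ≤ 1)
    (hS : S1 R u v ≤ ENNReal.ofReal (4 * Real.pi * R ^ 2 * (1 + δ)))
    (hD : DD R u + DD R v ≤ ENNReal.ofReal (δ * R ^ 4)) :
    E1 R u ≤ ENNReal.ofReal (2 * √δ * R ^ 3) ∧ E1 R v ≤ ENNReal.ofReal (2 * √δ * R ^ 3) := by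
  have hR : 0 < R := h.cu.hR
  have hsum := mJ_sum R u v h (2 * R ^ 2 * (1 + δ)) (by
    refine hS.trans (le_of_eq ?_); congr 1; ring)
  have hM : ENNReal.ofReal (2 * R ^ 2 * (1 + δ)) ≤ ENNReal.ofReal (4 * R ^ 2) := by
    apply ENNReal.ofReal_le_ofReal
    nlinarith [sq_nonneg R]
  have hIu : I1 u 0 R ≤ ENNReal.ofReal (4 * R ^ 2) := by
    refine le_trans ?_ (hsum.trans hM)
    rw [add_assoc]
    exact le_self_add
  have hIv : I1 v 0 R ≤ ENNReal.ofReal (4 * R ^ 2) := by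
    refine le_trans ?_ (hsum.trans hM)
    rw [add_comm (I1 u 0 R), add_assoc]
    exact le_self_add
  have hDu : DD R u ≤ ENNReal.ofReal (δ * R ^ 4) := le_self_add.trans hD
  have hDv : DD R v ≤ ENNReal.ofReal (δ * R ^ 4) := by
    refine le_trans ?_ hD
    rw [add_comm]
    exact le_self_add
  exact ⟨mJ_one R hR u δ hδ hIu hDu, mJ_one R hR v δ hδ hIv hDv⟩

end Pool.Agent.Lib_helper59.REV
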