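import Pool.Agent.Lib_helper59.REVM.Defs

/-! # REVM, block mK (helper33) -/

open MeasureTheory Filter Topology

namespace Pool.Agent.Lib_helper59.REV

theorem mK_sq {a b : ℝ} (hb : 0 ≤ b) (h : a ^ 2 ≤ b ^ 2) : a ≤ b :=
  (le_abs_self a).trans ((sq_le_sq.1 h).trans_eq (abs_of_nonneg hb))

theorem mK_dist (x : E3) (c ρ : ℝ) (hρ : 0 ≤ ρ) :
    x ∈ Metric.closedBall (!₂[0, 0, c] : E3) ρ ↔
      x 0 ^ 2 + x 1 ^ 2 + (x 2 - c) ^ 2 ≤ ρ ^ 2 := by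
  rw [Metric.mem_closedBall, EuclideanSpace.dist_eq, Fin.sum_univ_three, Real.sqrt_le_iff]
  simp only [Real.dist_eq, sq_abs]
  show 0 ≤ ρ ∧ (x 0 - 0) ^ 2 + (x 1 - 0) ^ 2 + (x 2 - c) ^ 2 ≤ ρ ^ 2 ↔ _
  rw [sub_zero, sub_zero]
  exact ⟨fun h => h.2, fun h => ⟨hρ, h⟩⟩

theorem mK_main (R : ℝ) (u v : ℝ → ℝ) (h : Prof R u v) (ε : ℝ) (hε : 0 < ε) (hε1 : ε < 1)
    (hu : ∀ r ∈ Set.Icc 0 R, |u r - u R - √(R ^ 2 - r ^ 2)| ≤ ε * R)
    (hv : ∀ r ∈ Set.Icc 0 R, |v r - v R - √(R ^ 2 - r ^ 2)| ≤ ε * R)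
    (hH : u R + v R ≤ ε * R) :
    Metric.closedBall (!₂[0, 0, u R] : E3) ((1 - ε) * R) ⊆ Bo R u v ∧
      Bo R u v ⊆ Metric.closedBall (!₂[0, 0, u R] : E3) ((1 + 2 * ε) * R) := by
  have hR := h.cu.hR
  constructor
  · intro x hx
    rw [mK_dist x _ _ (mul_nonneg (by linarith) hR.le)] at hx
    have hs0 : 0 ≤ x 0 ^ 2 + x 1 ^ 2 := by positivity
    have hR2 : ((1 - ε) * R) ^ 2 ≤ R ^ 2 := by
      have : (1 - ε) * R ≤ R := by nlinarith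
      exact pow_le_pow_left₀ (mul_nonneg (by linarith) hR.le) this 2
    have hsR : x 0 ^ 2 + x 1 ^ 2 ≤ R ^ 2 := by nlinarith [sq_nonneg (x 2 - u R)]
    have hr0 : 0 ≤ nr (x 0, x 1) := Real.sqrt_nonneg _
    have hr2 : nr (x 0, x 1) ^ 2 = x 0 ^ 2 + x 1 ^ 2 := Real.sq_sqrt hs0
    set r := nr (x 0, x 1) with hr
    have hrR : r ≤ R := by
      refine mK_sq hR.le ?_
      rw [hr2]
      exact hsR
    have hu' := hu r ⟨hr0, hrR⟩
    have hv' := hv r ⟨hr0, hrR⟩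
    set k := √(R ^ 2 - r ^ 2) with hk
    have hk0 : 0 ≤ k := Real.sqrt_nonneg _
    have hk2 : k ^ 2 = R ^ 2 - r ^ 2 := Real.sq_sqrt (by nlinarith)
    -- `|x 2 - u R| + ε R ≤ k`
    set w := |x 2 - u R| with hw
    have hw0 : 0 ≤ w := abs_nonneg _
    have hw2 : w ^ 2 = (x 2 - u R) ^ 2 := sq_abs _
    have hw1 : w ≤ (1 - ε) * R := by
      refine mK_sq (mul_nonneg (by linarith) hR.le) ?_
      rw [hw2]
      nlinarith
    have hwk : w + ε * R ≤ k := by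
      refine mK_sq hk0 ?_
      have e1 : w * (ε * R) ≤ (1 - ε) * R * (ε * R) :=
        mul_le_mul_of_nonneg_right hw1 (by positivity)
      nlinarith
    have hx1 := (abs_le.1 (le_of_eq hw.symm)).1
    have hx2 := (abs_le.1 (le_of_eq hw.symm)).2
    have hu1 := (abs_le.1 hu').1
    have hv1 := (abs_le.1 hv').1
    refine ⟨hsR, ?_, ?_⟩
    · show -v r ≤ x 2
      have := h.hh
      linarith
    · show x 2 ≤ u r
      linarith
  · rintro x ⟨hsR, h1, h2⟩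
    rw [mK_dist x _ _ (mul_nonneg (by linarith) hR.le)]
    have hs0 : 0 ≤ x 0 ^ 2 + x 1 ^ 2 := by positivity
    have hr0 : 0 ≤ nr (x 0, x 1) := Real.sqrt_nonneg _
    have hr2 : nr (x 0, x 1) ^ 2 = x 0 ^ 2 + x 1 ^ 2 := Real.sq_sqrt hs0
    set r := nr (x 0, x 1) with hr
    have hrR : r ≤ R := by
      refine mK_sq hR.le ?_
      rw [hr2]
      exact hsR
    have hu' := (abs_le.1 (hu r ⟨hr0, hrR⟩)).2
    have hv' := (abs_le.1 (hv r ⟨hr0, hrR⟩)).2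
    set k := √(R ^ 2 - r ^ 2) with hk
    have hk0 : 0 ≤ k := Real.sqrt_nonneg _
    have hk2 : k ^ 2 = R ^ 2 - r ^ 2 := Real.sq_sqrt (by nlinarith)
    have hkR : k ≤ R := by
      refine mK_sq hR.le ?_
      rw [hk2]
      nlinarith
    have hεR : 0 < ε * R := by positivity
    have hw : |x 2 - u R| ≤ k + 2 * (ε * R) := by
      rw [abs_le]
      constructor <;> linarith
    have hw2 : (x 2 - u R) ^ 2 ≤ (k + 2 * (ε * R)) ^ 2 := by
      rw [← sq_abs]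
      exact pow_le_pow_left₀ (abs_nonneg _) hw 2
    have e1 : k * (ε * R) ≤ R * (ε * R) := mul_le_mul_of_nonneg_right hkR hεR.le
    nlinarith

end Pool.Agent.Lib_helper59.REV
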