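import Pool.Agent.Lib_helper59.REVM.Defs

/-! # REVM, block mN -/

open MeasureTheory Filter Topology

namespace Pool.Agent.Lib_helper59.REV

/-- a small number for the elementary part -/
theorem mN_small (A B : ℝ) (hA : 0 < A) (hB : 0 < B) : ∃ δ : ℝ, 0 < δ ∧ δ ≤ 1 ∧
    ∀ δ' : ℝ, 0 < δ' → δ' ≤ δ → A * √δ' ≤ B ∧ δ' ≤ B := by
  refine ⟨min 1 (min B ((B / A) ^ 2)), by positivity, min_le_left _ _, fun d hd hdle => ?_⟩
  have h1 : d ≤ (B / A) ^ 2 := hdle.trans ((min_le_right _ _).trans (min_le_right _ _))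
  have h2 : d ≤ B := hdle.trans ((min_le_right _ _).trans (min_le_left _ _))
  refine ⟨?_, h2⟩
  have h3 : √d ≤ B / A := by
    rw [← Real.sqrt_sq (by positivity : 0 ≤ B / A)]
    exact Real.sqrt_le_sqrt h1
  calc A * √d ≤ A * (B / A) := by gcongr
    _ = B := by field_simp

/-- the point `b` with `√(R² - b²) = t R` -/
theorem mN_b (R t : ℝ) (hR : 0 < R) (ht : 0 < t) (ht1 : t ≤ 1 / 2) :
    0 < R * √(1 - t ^ 2) ∧ R * √(1 - t ^ 2) < R ∧ R / 2 ≤ R * √(1 - t ^ 2) ∧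
      √(R ^ 2 - (R * √(1 - t ^ 2)) ^ 2) = t * R := by
  have h1 : 0 < 1 - t ^ 2 := by nlinarith
  have h2 : √(1 - t ^ 2) ^ 2 = 1 - t ^ 2 := Real.sq_sqrt h1.le
  have h3 : 1 / 2 ≤ √(1 - t ^ 2) := by
    rw [← Real.sqrt_sq (by norm_num : (0:ℝ) ≤ 1 / 2)]
    exact Real.sqrt_le_sqrt (by nlinarith)
  have h4 : √(1 - t ^ 2) < 1 := by
    rw [Real.sqrt_lt' one_pos]
    nlinarith
  refine ⟨by positivity, by nlinarith, by nlinarith, ?_⟩
  have h5 : R ^ 2 - (R * √(1 - t ^ 2)) ^ 2 = (t * R) ^ 2 := by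
    rw [mul_pow, h2]
    ring
  rw [h5, Real.sqrt_sq (by positivity)]

theorem mN_h (ε : ℝ) (hε : 0 < ε) : ∃ δ : ℝ, 0 < δ ∧ δ ≤ 1 ∧ ∀ δ' : ℝ, 0 < δ' → δ' ≤ δ →
    ∀ R H : ℝ, 0 < R → (∀ b, 0 < b → b < R → R * H ≤
      2 * R ^ 2 * δ' + 2 * R * √(R ^ 2 - b ^ 2) + 2 * (2 * √δ' * R ^ 3) / √(R ^ 2 - b ^ 2)) →
    H ≤ ε * R := by
  set t : ℝ := min (1 / 2) (ε / 8) with ht
  have ht0 : 0 < t := by positivity
  have ht1 : t ≤ 1 / 2 := min_le_left _ _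
  have ht2 : t ≤ ε / 8 := min_le_right _ _
  obtain ⟨δ, hδ, hδ1, H0⟩ := mN_small (4 / t) (ε / 8) (by positivity) (by positivity)
  refine ⟨δ, hδ, hδ1, fun d hd hdle R H hR hb => ?_⟩
  obtain ⟨h1, h2⟩ := H0 d hd hdle
  obtain ⟨b1, b2, -, b4⟩ := mN_b R t hR ht0 ht1
  have h3 := hb _ b1 b2
  rw [b4] at h3
  have h4 : 2 * (2 * √d * R ^ 3) / (t * R) = R * (4 / t * √d * R) := by
    field_simp
    ring
  rw [h4] at h3
  have h5 : R * H ≤ R * (ε * R) := by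
    calc R * H ≤ 2 * R ^ 2 * d + 2 * R * (t * R) + R * (4 / t * √d * R) := h3
      _ ≤ 2 * R ^ 2 * (ε / 8) + 2 * R * (ε / 8 * R) + R * (ε / 8 * R) := by gcongr
      _ ≤ R * (ε * R) := by nlinarith [mul_pos hR hR, mul_pos (mul_pos hR hR) hε]
  exact le_of_mul_le_mul_left h5 hR

/-- near the axis -/
theorem mN_axis (R : ℝ) (u : ℝ → ℝ) (hu : Cap R u) (e a r : ℝ) (he0 : 0 < e) (he1 : e ≤ 1)
    (ha : a = e / 32 * R) (hr : r ∈ Set.Icc 0 R) (h : r ≤ a)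
    (hmid : |u a - u R - √(R ^ 2 - a ^ 2)| ≤ e / 2 * R) :
    |u r - u R - √(R ^ 2 - r ^ 2)| ≤ e * R := by
  have hR : 0 < R := hu.hR
  have heR : 0 < e * R := by positivity
  have ha0 : 0 < a := by rw [ha]; positivity
  have haR : a ≤ R / 32 := by rw [ha]; nlinarith
  have hk : ∀ s, √(R ^ 2 - s ^ 2) ≤ R := by
    intro s
    rw [Real.sqrt_le_left hR.le]
    nlinarith [sq_nonneg s]
  have hma := abs_le.mp hmid
  have hra : u a ≤ u r := hu.anti hr ⟨ha0.le, by linarith⟩ h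
  have hr0 : u r ≤ u 0 := hu.anti ⟨le_rfl, hR.le⟩ hr hr.1
  have hsl : (R / 2 - a) * (u 0 - u a) ≤ a * (u a - u (R / 2)) := by
    have h3 := hu.conc.slope_anti_adjacent (x := 0) (y := a) (z := R / 2)
      ⟨le_rfl, hR.le⟩ ⟨by positivity, by linarith⟩ ha0 (by linarith)
    rw [div_le_div_iff₀ (by linarith) (by linarith)] at h3
    linarith
  have hhalf : u R ≤ u (R / 2) := hu.anti ⟨by positivity, by linarith⟩ ⟨hR.le, le_rfl⟩
    (by linarith)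
  have hka' := hk a
  have hua : u a - u R ≤ 2 * R := by nlinarith
  have h0a : u 0 - u a ≤ e / 4 * R := by
    have h5 : 0 ≤ u 0 - u a := by linarith
    have h6 : R / 4 * (u 0 - u a) ≤ R / 4 * (e / 4 * R) := by
      calc R / 4 * (u 0 - u a) ≤ (R / 2 - a) * (u 0 - u a) := by
            gcongr
            linarith
        _ ≤ a * (u a - u (R / 2)) := hsl
        _ ≤ a * (2 * R) := by
            gcongr
            linarith
        _ = R / 4 * (e / 4 * R) := by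
            rw [ha]
            ring
    exact le_of_mul_le_mul_left h6 (by positivity)
  have hka : R - e / 8 * R ≤ √(R ^ 2 - a ^ 2) := by
    apply Real.le_sqrt_of_sq_le
    have h7 : a ^ 2 = (e / 32) ^ 2 * R ^ 2 := by rw [ha]; ring
    rw [h7]
    have h8 : (R - e / 8 * R) ^ 2 = (1 - e / 8) ^ 2 * R ^ 2 := by ring
    rw [h8]
    have h9 : 0 < R ^ 2 := by positivity
    have h10 : (1 - e / 8) ^ 2 + (e / 32) ^ 2 ≤ 1 := by nlinarith
    nlinarith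
  have hkr : √(R ^ 2 - a ^ 2) ≤ √(R ^ 2 - r ^ 2) := by
    apply Real.sqrt_le_sqrt
    have h11 : r ^ 2 ≤ a ^ 2 := pow_le_pow_left₀ hr.1 h 2
    linarith
  have hkr' := hk r
  rw [abs_le]
  constructor <;> linarith [hma.1, hma.2]

/-- near the rim -/
theorem mN_rim (R : ℝ) (u : ℝ → ℝ) (hu : Cap R u) (e b r : ℝ) (he0 : 0 < e)
    (hb0 : 0 < b) (hbR : b < R) (hb : √(R ^ 2 - b ^ 2) ≤ e * R) (hr : r ∈ Set.Icc 0 R) (h : b ≤ r)
    (hub : u b - u R ≤ e * R) :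
    |u r - u R - √(R ^ 2 - r ^ 2)| ≤ e * R := by
  have hR : 0 < R := hu.hR
  have h5 : 0 ≤ u r - u R := sub_nonneg.mpr (hu.anti hr ⟨hR.le, le_rfl⟩ hr.2)
  have h6 : u r - u R ≤ u b - u R :=
    sub_le_sub_right (hu.anti ⟨hb0.le, hbR.le⟩ hr h) _
  have h7 : √(R ^ 2 - r ^ 2) ≤ √(R ^ 2 - b ^ 2) := by
    apply Real.sqrt_le_sqrt
    have h11 : b ^ 2 ≤ r ^ 2 := pow_le_pow_left₀ hb0.le h 2
    linarith
  have h8 : 0 ≤ √(R ^ 2 - r ^ 2) := Real.sqrt_nonneg _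
  rw [abs_le]
  constructor <;> linarith

/-- the middle -/
theorem mN_mid (R : ℝ) (u : ℝ → ℝ) (e t al d b r : ℝ) (hR : 0 < R) (he0 : 0 < e) (ht0 : 0 < t)
    (ht : t = e / 64) (hal0 : 0 < al) (hd : 0 < d) (h1b : 6 / (al ^ 2 * t) * √d ≤ e / 64)
    (b4 : √(R ^ 2 - b ^ 2) = t * R)
    (hM : |(u r - u b) - (√(R ^ 2 - r ^ 2) - √(R ^ 2 - b ^ 2))| ≤
      3 * R * (2 * √d * R ^ 3) / (r ^ 2 * √(R ^ 2 - b ^ 2)))
    (hUb : u b - u R ≤ e / 4 * R) (hUb0 : 0 ≤ u b - u R) (hr : al * R ≤ r) :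
    |u r - u R - √(R ^ 2 - r ^ 2)| ≤ e / 2 * R := by
  have hr0 : 0 < r := lt_of_lt_of_le (by positivity) hr
  rw [b4] at hM
  have h4 : 3 * R * (2 * √d * R ^ 3) / (r ^ 2 * (t * R)) ≤ e / 64 * R := by
    calc 3 * R * (2 * √d * R ^ 3) / (r ^ 2 * (t * R))
        ≤ 3 * R * (2 * √d * R ^ 3) / ((al * R) ^ 2 * (t * R)) := by gcongr
      _ = 6 / (al ^ 2 * t) * √d * R := by
          field_simp
          ring
      _ ≤ e / 64 * R := by gcongr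
  have h5 := abs_le.mp (hM.trans h4)
  have h6 : t * R = e / 64 * R := by rw [ht]
  have h7 : 0 < e * R := by positivity
  rw [abs_le]
  constructor <;> linarith [h5.1, h5.2]

/-- the tail -/
theorem mN_tail (R : ℝ) (u : ℝ → ℝ) (e t d b : ℝ) (hR : 0 < R) (he0 : 0 < e) (ht0 : 0 < t)
    (ht : t = e / 64) (h1a : 4 / t * √d ≤ e / 64) (h2 : d ≤ e / 64)
    (b4 : √(R ^ 2 - b ^ 2) = t * R) (b3 : R / 2 ≤ b)
    (hT : b * (u b - u R) ≤
      2 * R ^ 2 * d + 2 * R * √(R ^ 2 - b ^ 2) + 2 * (2 * √d * R ^ 3) / √(R ^ 2 - b ^ 2))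
    (h5 : 0 ≤ u b - u R) : u b - u R ≤ e / 4 * R := by
  rw [b4] at hT
  have h4 : 2 * (2 * √d * R ^ 3) / (t * R) = R * (4 / t * √d * R) := by
    field_simp
    ring
  rw [h4] at hT
  have h6 : R / 2 * (u b - u R) ≤ R / 2 * (e / 4 * R) := by
    calc R / 2 * (u b - u R) ≤ b * (u b - u R) := by gcongr
      _ ≤ 2 * R ^ 2 * d + 2 * R * (t * R) + R * (4 / t * √d * R) := hT
      _ ≤ 2 * R ^ 2 * (e / 64) + 2 * R * (t * R) + R * (e / 64 * R) := by gcongr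
      _ ≤ R / 2 * (e / 4 * R) := by
          rw [ht]
          have h7 : 0 < R * R * e := by positivity
          linarith
  exact le_of_mul_le_mul_left h6 (by positivity)

theorem mN_main (ε : ℝ) (hε : 0 < ε) : ∃ δ : ℝ, 0 < δ ∧ δ ≤ 1 ∧ ∀ δ' : ℝ, 0 < δ' → δ' ≤ δ →
    ∀ (R : ℝ) (u : ℝ → ℝ), Cap R u →
    (∀ a b, 0 < a → a ≤ b → b < R → |(u a - u b) - (√(R ^ 2 - a ^ 2) - √(R ^ 2 - b ^ 2))| ≤
      3 * R * (2 * √δ' * R ^ 3) / (a ^ 2 * √(R ^ 2 - b ^ 2))) →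
    (∀ b, 0 < b → b < R → b * (u b - u R) ≤
      2 * R ^ 2 * δ' + 2 * R * √(R ^ 2 - b ^ 2) + 2 * (2 * √δ' * R ^ 3) / √(R ^ 2 - b ^ 2)) →
    ∀ r ∈ Set.Icc 0 R, |u r - u R - √(R ^ 2 - r ^ 2)| ≤ ε * R := by
  set e : ℝ := min ε 1 with he
  have he0 : 0 < e := by positivity
  have he1 : e ≤ 1 := min_le_right _ _
  have heε : e ≤ ε := min_le_left _ _
  have ht0 : 0 < e / 64 := by positivity
  have ht1 : e / 64 ≤ 1 / 2 := by linarith
  have hal0 : 0 < e / 32 := by positivity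
  obtain ⟨δ, hδ, hδ1, H0⟩ := mN_small (4 / (e / 64) + 6 / ((e / 32) ^ 2 * (e / 64))) (e / 64)
    (by positivity) (by positivity)
  refine ⟨δ, hδ, hδ1, fun d hd hdle R u hu hM hT r hr => ?_⟩
  have hR : 0 < R := hu.hR
  obtain ⟨h1, h2⟩ := H0 d hd hdle
  have hs0 : 0 ≤ √d := Real.sqrt_nonneg d
  rw [add_mul] at h1
  have h1a : 4 / (e / 64) * √d ≤ e / 64 :=
    le_trans (le_add_of_nonneg_right (by positivity)) h1
  have h1b : 6 / ((e / 32) ^ 2 * (e / 64)) * √d ≤ e / 64 :=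
    le_trans (le_add_of_nonneg_left (by positivity)) h1
  obtain ⟨b1, b2, b3, b4⟩ := mN_b R (e / 64) hR ht0 ht1
  set b := R * √(1 - (e / 64) ^ 2) with hb
  have hUb0 : 0 ≤ u b - u R := sub_nonneg.mpr (hu.anti ⟨b1.le, b2.le⟩ ⟨hR.le, le_rfl⟩ b2.le)
  have hUb : u b - u R ≤ e / 4 * R :=
    mN_tail R u e (e / 64) d b hR he0 ht0 rfl h1a h2 b4 b3 (hT b b1 b2) hUb0
  have hmid : ∀ s, e / 32 * R ≤ s → s ≤ b → |u s - u R - √(R ^ 2 - s ^ 2)| ≤ e / 2 * R :=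
    fun s hs hsb => mN_mid R u e (e / 64) (e / 32) d b s hR he0 ht0 rfl hal0 hd h1b b4
      (hM s b (lt_of_lt_of_le (by positivity) hs) hsb b2) hUb hUb0 hs
  refine le_trans ?_ (mul_le_mul_of_nonneg_right heε hR.le)
  have heR : 0 < e * R := by positivity
  have halb : e / 32 * R ≤ b := by
    refine le_trans ?_ b3
    nlinarith
  rcases le_total r (e / 32 * R) with h | h
  · exact mN_axis R u hu e _ r he0 he1 rfl hr h (hmid _ le_rfl halb)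
  · rcases le_total r b with h' | h'
    · exact (hmid r h h').trans (by linarith)
    · exact mN_rim R u hu e b r he0 b1 b2 (by rw [b4]; linarith) hr h' (by linarith)

end Pool.Agent.Lib_helper59.REV
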