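import Pool.Agent.Lib_helper59.REVF.Top
import Pool.Agent.Lib_helper59.REVMF.mC
import Pool.Agent.Lib_helper59.REVMF.mD
import Pool.Agent.Lib_helper59.REVMF.mG
import Pool.Agent.Lib_helper59.REVMF.mI
import Pool.Agent.Lib_helper59.REVMF.mJ
import Pool.Agent.Lib_helper59.REVMF.mN
import Pool.Agent.Lib_helper59.REVMF.mK

/-! # REVM, assembly: a uniform margin in Steinhaus' inequality for bodies of revolution -/

open MeasureTheory Filter Topology

namespace Pool.Agent.Lib_helper59.REV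

/-- stability: nearly optimal profiles are nearly round -/
theorem topm_stab (ε : ℝ) (hε : 0 < ε) (hε1 : ε < 1) : ∃ δ : ℝ, 0 < δ ∧ δ ≤ 1 ∧
    ∀ (R : ℝ) (u v : ℝ → ℝ), Prof R u v →
      S1 R u v ≤ ENNReal.ofReal (4 * Real.pi * R ^ 2 * (1 + δ)) →
      DD R u + DD R v ≤ ENNReal.ofReal (δ * R ^ 4) →
      Metric.closedBall (!₂[0, 0, u R] : E3) ((1 - ε) * R) ⊆ Bo R u v ∧
      Bo R u v ⊆ Metric.closedBall (!₂[0, 0, u R] : E3) ((1 + 2 * ε) * R) := by
  obtain ⟨d1, h1, h1', H1⟩ := mN_main ε hε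
  obtain ⟨d2, h2, h2', H2⟩ := mN_h ε hε
  have hd : 0 < min d1 d2 := lt_min h1 h2
  refine ⟨min d1 d2, hd, (min_le_left _ _).trans h1', fun R u v h hS hD => ?_⟩
  have hR : 0 < R := h.cu.hR
  set δ := min d1 d2 with hδ
  have hδ1 : δ ≤ 1 := (min_le_left _ _).trans h1'
  obtain ⟨hEu, hEv⟩ := mJ_e R u v h δ hd.le hδ1 hS hD
  have he : 0 ≤ 2 * √δ * R ^ 3 := by positivity
  have hT := fun b (hb0 : 0 < b) (hb : b < R) =>
    mI_main R u v h δ b (2 * √δ * R ^ 3) hd.le hb0 hb he hS hEu hEv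
  have hmu : ∀ b, 0 < b → b < R → 0 ≤ u b - u R := fun b hb0 hb =>
    sub_nonneg.mpr (h.cu.anti ⟨hb0.le, hb.le⟩ ⟨hR.le, le_rfl⟩ hb.le)
  have hmv : ∀ b, 0 < b → b < R → 0 ≤ v b - v R := fun b hb0 hb =>
    sub_nonneg.mpr (h.cv.anti ⟨hb0.le, hb.le⟩ ⟨hR.le, le_rfl⟩ hb.le)
  have hh := h.hh
  refine mK_main R u v h ε hε hε1 ?_ ?_ ?_
  · refine H1 δ hd (min_le_left _ _) R u h.cu (fun a b ha hab hb =>
      mG_main R u h.cu a b _ ha hab hb he hEu) fun b hb0 hb => ?_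
    have := hT b hb0 hb
    have h3 := mul_nonneg hb0.le (hmv b hb0 hb)
    have h4 := mul_nonneg hR.le hh
    linarith
  · refine H1 δ hd (min_le_left _ _) R v h.cv (fun a b ha hab hb =>
      mG_main R v h.cv a b _ ha hab hb he hEv) fun b hb0 hb => ?_
    have := hT b hb0 hb
    have h3 := mul_nonneg hb0.le (hmu b hb0 hb)
    have h4 := mul_nonneg hR.le hh
    linarith
  · refine H2 δ hd (min_le_right _ _) R (u R + v R) hR fun b hb0 hb => ?_
    have := hT b hb0 hb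
    have h3 := mul_nonneg hb0.le (hmu b hb0 hb)
    have h4 := mul_nonneg hb0.le (hmv b hb0 hb)
    linarith

/-- uniform margin for the bodies `Bo R u v` -/
theorem topm_Bo (ε : ℝ) (hε : 0 < ε) (hε1 : ε < 1) : ∃ lam : ℝ, 1 < lam ∧
    ∀ (R : ℝ) (u v : ℝ → ℝ), Prof R u v →
      ENNReal.ofReal (lam * (4 * Real.pi / 9)) * bd (Bo R u v) ^ 3 ≤
        (∫⁻ d in Set.Ioo (-R) R, bd (sec (Bo R u v) d) ^ 2) ^ 2 ∨
      (Metric.closedBall (!₂[0, 0, u R] : E3) ((1 - ε) * R) ⊆ Bo R u v ∧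
        Bo R u v ⊆ Metric.closedBall (!₂[0, 0, u R] : E3) ((1 + 2 * ε) * R)) := by
  obtain ⟨δ, hδ, -, H⟩ := topm_stab ε hε hε1
  obtain ⟨lam, hlam, H2⟩ := mD_main δ hδ
  refine ⟨lam, hlam, fun R u v h => ?_⟩
  have hR : 0 < R := h.cu.hR
  rcases H2 R (S1 R u v) (DD R u + DD R v) (L0 R u v) hR (L0_meas R u v) (one_w2 R hR)
    (mC_main R u v h) with h1 | ⟨h1, h2⟩
  · left
    calc ENNReal.ofReal (lam * (4 * Real.pi / 9)) * bd (Bo R u v) ^ 3
        ≤ ENNReal.ofReal (lam * (4 * Real.pi / 9)) * S1 R u v ^ 3 := by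
          gcongr
          exact srf_le R u v h
      _ ≤ (∫⁻ d in Set.Ioo (-R) R, L0 R u v d ^ 2) ^ 2 := h1
      _ ≤ _ := by
          refine pow_le_pow_left' (lintegral_mono_ae
            ((ae_restrict_iff' measurableSet_Ioo).mpr ?_)) 2
          filter_upwards [dif_sec R u h.cu, dif_sec R v h.cv] with d hdu hdv hd
          gcongr
          refine perB_main R u v h d hd.1 hd.2 ?_
          filter_upwards [hdu, hdv] with s h1 h2 h3
          exact ⟨(h1 h3).1, (h1 h3).2.1, (h1 h3).2.2, (h2 h3).2.2⟩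
  · right
    exact H R u v h h1 h2

/-- uniform margin for convex bodies of revolution: away from balls, the planes orthogonal to a
suitable direction (parallel to the axis) have perimeters `L` with `(∫ L²)² ≥ lam (4π/9) S³`,
`lam > 1` depending on the distance from the balls only. `g` moves the body, the planes are the
planes `x 0 = t`. -/
theorem topm_main (ε : ℝ) (hε : 0 < ε) (hε1 : ε < 1) : ∃ lam : ℝ, 1 < lam ∧
    ∀ K : Set E3, Convex ℝ K → IsCompact K → (interior K).Nonempty →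
    ∀ c v : E3, v ≠ 0 → (∀ x y : E3, inner ℝ v (x - c) = inner ℝ v (y - c) →
      ‖x - c‖ = ‖y - c‖ → x ∈ K → y ∈ K) →
    (∃ g : E3 ≃ᵃⁱ[ℝ] E3, ENNReal.ofReal (lam * (4 * Real.pi / 9)) * bd K ^ 3 ≤
        (∫⁻ t : ℝ, bd (sec (g '' K) t) ^ 2) ^ 2) ∨
      ∃ (x : E3) (r : ℝ), 0 < r ∧ Metric.closedBall x ((1 - ε) * r) ⊆ K ∧
        K ⊆ Metric.closedBall x ((1 + 2 * ε) * r) := by
  obtain ⟨lam, hlam, H⟩ := topm_Bo ε hε hε1
  refine ⟨lam, hlam, fun K hc hk hi c v hv hr => ?_⟩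
  obtain ⟨g, hg⟩ := isoB_axis c v hv
  have hc' : Convex ℝ (g '' K) := by
    have := hc.affine_image (g.toAffineEquiv : E3 →ᵃ[ℝ] E3)
    exact this
  have hk' : IsCompact (g '' K) := hk.image g.continuous
  have hi' : (interior (g '' K)).Nonempty := by
    have h1 : g '' K = g.toHomeomorph '' K := rfl
    rw [h1, ← g.toHomeomorph.image_interior]
    exact hi.image _
  have hr' : ∀ x y : E3, x 2 = y 2 → x 0 ^ 2 + x 1 ^ 2 = y 0 ^ 2 + y 1 ^ 2 →
      x ∈ g '' K → y ∈ g '' K := by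
    rintro x y h2 h01 ⟨x', hx', rfl⟩
    refine ⟨g.symm y, ?_, g.apply_symm_apply y⟩
    have h3 := hg x'
    have h4 := hg (g.symm y)
    rw [g.apply_symm_apply] at h4
    have hvn : ‖v‖ ≠ 0 := norm_ne_zero_iff.mpr hv
    refine hr x' _ ?_ ?_ hx'
    · have h5 : inner ℝ v (x' - c) / ‖v‖ = inner ℝ v (g.symm y - c) / ‖v‖ := by
        rw [← h3.1, ← h4.1, h2]
      exact (div_left_inj' hvn).mp h5
    · rw [← h3.2, ← h4.2, EuclideanSpace.norm_eq, EuclideanSpace.norm_eq, Fin.sum_univ_three,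
        Fin.sum_univ_three]
      simp only [Real.norm_eq_abs, sq_abs]
      rw [h01, h2]
  obtain ⟨R, u, w, hP, hK⟩ := top_prof _ hc' hk' hi' hr'
  rcases H R u w hP with h | h
  · left
    refine ⟨g, ?_⟩
    rw [← hK, isoA_bd] at h
    exact h.trans (pow_le_pow_left' (setLIntegral_le_lintegral _ _) 2)
  · right
    refine ⟨g.symm !₂[0, 0, u R], R, hP.cu.hR, ?_⟩
    rw [← hK] at h
    have himg : ∀ s : ℝ, ∀ x : E3, x ∈ Metric.closedBall (g.symm !₂[0, 0, u R]) s ↔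
        g x ∈ Metric.closedBall (!₂[0, 0, u R] : E3) s := by
      intro s x
      rw [Metric.mem_closedBall, Metric.mem_closedBall, ← g.dist_map x (g.symm _),
        g.apply_symm_apply]
    constructor
    · intro x hx
      obtain ⟨y, hy, hxy⟩ := h.1 ((himg _ x).mp hx)
      exact g.injective hxy ▸ hy
    · intro x hx
      exact (himg _ x).mpr (h.2 ⟨x, hx, rfl⟩)

end Pool.Agent.Lib_helper59.REV
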